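import Pool.Agent.Helper684.GX.Har.I7

attribute [local instance] Pool.Agent.Helper684.GX.Nev.leafInst

set_option autoImplicit false

open Set Metric Filter Topology MeasureTheory
open scoped Manifold ComplexConjugate ENNReal
open ProbabilityTheory
open Pool.Agent.Helper684.GX.Nev Pool.Agent.Helper684.GX.Ergo

namespace Pool.Agent.Helper684.GX.Har

variable {E M : Type*} [NormedAddCommGroup E] [NormedSpace ℂ E] [TopologicalSpace M]
  [ChartedSpace E M] [IsManifold 𝓘(ℂ, E) 1 M] [MeasurableSpace M]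

/-- the barrier given by `exists_W` -/
theorem exists_barrier [BorelSpace M] [FiniteDimensional ℂ E] [T2Space M] [CompactSpace M]
    (SF : SingularFoliation E M) (ω : PosForm E M) {Φ : M → ℂ → M}
    (hΦ : Fam SF.toFoliation Φ) : ∃ W : M → ℝ, Barrier SF.toFoliation ω W := by
  obtain ⟨W, h1, h2, h3, h4, h5⟩ := Pool.Agent.Helper684.GX.Wf.exists_W SF ω Φ hΦ.meas hΦ.cov
  exact ⟨W, h1, h2, h3, h4, h5⟩

/-- **The Poincare measure of a harmonic current**: if the directed positive harmonic current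
with trace measure `μ` satisfies the test property `htest`, then its Poincare measure is finite
and invariant under the kernel `(1/π) (1-|w|²)² dvol(w)` along the leaves; it is ergodic if the
current is extremal. -/
theorem poincare_measure [BorelSpace M] [FiniteDimensional ℂ E] [T2Space M] [CompactSpace M]
    (SF : SingularFoliation E M) (ω : PosForm E M) {μ : Measure M} [IsFiniteMeasure μ]
    {Φ : M → ℂ → M} (hΦ : Fam SF.toFoliation Φ) (hH : ∀ᵐ x ∂μ, IsHyperbolic SF.toFoliation x)
    (htest : ∀ (w : M → ℝ) (K : Set M) (B : ℝ), Measurable w → IsCompact K → Disjoint K SF.sing →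
      (∀ x ∉ K, w x = 0) → (∀ x, |w x| ≤ B) →
      (∀ φ, SF.toFoliation.IsUniversalCovering φ →
        ContDiffOn ℝ 2 (fun z => w (φ z)) (ball 0 1) ∧
        |lap (fun z => w (φ z)) 0| ≤ B * pullback ω φ 0 ∧
          ‖fderiv ℝ (fun z => w (φ z)) 0‖ ^ 2 ≤ B * pullback ω φ 0) →
      Integrable (leafLap ω SF.toFoliation w) μ ∧ ∫ x, leafLap ω SF.toFoliation w x ∂μ = 0)
    {den : M → ℝ} (hd : Measurable den)
    (hden : ∀ φ : ℂ → M, SF.toFoliation.IsUniversalCovering φ → den (φ 0) = pullback ω φ 0) :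
    IsFiniteMeasure (poin μ den) ∧
    (poin μ den).bind (kerOf Φ hΦ.meas (fun u => ENNReal.ofReal (u ^ 2 / Real.pi))) =
      poin μ den ∧
    (IsDirectedHarmonic ω SF.toFoliation μ → IsExtremal ω SF.toFoliation μ →
      ∀ A : Set M, MeasurableSet A → (∀ᵐ x ∂(poin μ den),
        kerOf Φ hΦ.meas (fun u => ENNReal.ofReal (u ^ 2 / Real.pi)) x A = A.indicator 1 x) →
      poin μ den A = 0 ∨ poin μ den Aᶜ = 0) := by
  have hT := test_of_leafLap hΦ hH htest
  obtain ⟨W, hW⟩ := exists_barrier SF ω hΦ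
  exact ⟨poin_finite hΦ hH hT hW hd hden, invariance hΦ hH hT hW hd hden,
    fun hμ hext A hA hinv => ergodic_kerOf hΦ hH hT hW hd hden hμ hext hA hinv⟩

end Pool.Agent.Helper684.GX.Har
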