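import Pool.Agent.Helper684.GX.Har.H8

attribute [local instance] Pool.Agent.Helper684.GX.Nev.leafInst

set_option autoImplicit false

open Set Metric Filter Topology MeasureTheory
open scoped Manifold ComplexConjugate ENNReal
open ProbabilityTheory
open Pool.Agent.Helper684.GX.Nev Pool.Agent.Helper684.GX.Ergo

namespace Pool.Agent.Helper684.GX.Har


theorem ae_mem_ball : ∀ᵐ z ∂hypVol, z ∈ ball (0 : ℂ) 1 := cc5

theorem integral_hh_pow (s : ℕ) (hs : 2 ≤ s) :
    ((s : ℝ) - 1) / Real.pi * ∫ w, hh 0 w ^ s ∂hypVol = 1 ∧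
      Integrable (fun w => hh 0 w ^ s) hypVol := by
  have h1 := approx_id_int s hs (fun _ => 1)
  simp only [mul_one] at h1
  rw [approx_id_J] at h1
  obtain ⟨k, rfl⟩ : ∃ k, s = k + 2 := ⟨s - 2, by omega⟩
  rw [Nat.add_sub_cancel] at h1
  have hk : ((k : ℝ) + 1) ≠ 0 := by positivity
  have hpos : 0 < Real.pi / ((k : ℝ) + 1) := div_pos Real.pi_pos (by positivity)
  constructor
  · rw [h1]
    push_cast
    have : (k : ℝ) + 2 - 1 = k + 1 := by ring
    rw [this]
    field_simp
  · by_contra hni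
    rw [integral_undef hni] at h1
    exact hpos.ne h1

end Pool.Agent.Helper684.GX.Har
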