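import Pool.Agent.Helper684.GX.Har.Sm

attribute [local instance] Pool.Agent.Helper684.GX.Nev.leafInst

set_option autoImplicit false

open Set Metric Filter Topology MeasureTheory
open scoped Manifold ComplexConjugate
open Pool.Agent.Helper684.GX.Nev Pool.Agent.Helper684.GX.Ergo

namespace Pool.Agent.Helper684.GX.Har


variable {E M : Type*} [NormedAddCommGroup E] [NormedSpace ℂ E] [TopologicalSpace M]
  [ChartedSpace E M] [IsManifold 𝓘(ℂ, E) 1 M] [MeasurableSpace M]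

variable {F : Foliation E M} {ω : PosForm E M} {μ : Measure M} {Φ : M → ℂ → M} {W : M → ℝ}


theorem second_diff {g g' : ℝ → ℝ} {c : ℝ} (hg : ∀ᶠ x in 𝓝 (0 : ℝ), HasDerivAt g (g' x) x)
    (hc : HasDerivAt g' c 0) :
    Tendsto (fun k : ℕ => ((k : ℝ) + 2) ^ 2 * (g (1 / ((k : ℝ) + 2)) + g (-(1 / ((k : ℝ) + 2))) -
      2 * g 0)) atTop (𝓝 c) := by
  have hneg : Tendsto (fun x : ℝ => -x) (𝓝 0) (𝓝 0) := by
    have := (continuous_neg (G := ℝ)).tendsto 0
    rwa [neg_zero] at this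
  have hg2 : ∀ᶠ x in 𝓝 (0 : ℝ), HasDerivAt g (g' (-x)) (-x) := hneg.eventually hg
  have hf : ∀ᶠ x in 𝓝[>] (0 : ℝ), HasDerivAt (fun x => g x + g (-x) - 2 * g 0)
      (g' x - g' (-x)) x := by
    filter_upwards [nhdsWithin_le_nhds hg, nhdsWithin_le_nhds hg2] with x h1 h2
    have h3 : HasDerivAt (fun x => g (-x)) (-(g' (-x))) x := by
      have := h2.comp x (hasDerivAt_neg x)
      rw [mul_neg_one] at this
      exact this
    have h4 := (h1.add h3).sub_const (2 * g 0)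
    rw [sub_eq_add_neg]
    exact h4
  have hq : ∀ᶠ x in 𝓝[>] (0 : ℝ), HasDerivAt (fun x : ℝ => x ^ 2) (2 * x) x := by
    refine Eventually.of_forall fun x => ?_
    simpa using hasDerivAt_pow 2 x
  have hq' : ∀ᶠ x in 𝓝[>] (0 : ℝ), 2 * x ≠ 0 := by
    filter_upwards [self_mem_nhdsWithin] with x hx
    have : (0 : ℝ) < x := hx
    positivity
  have hg0 : ContinuousAt g 0 := (hg.self_of_nhds).continuousAt
  have hfa : Tendsto (fun x => g x + g (-x) - 2 * g 0) (𝓝[>] (0 : ℝ)) (𝓝 0) := by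
    have h1 : Tendsto (fun x => g x + g (-x) - 2 * g 0) (𝓝 (0 : ℝ)) (𝓝 (g 0 + g 0 - 2 * g 0)) := by
      refine (Tendsto.add hg0 ?_).sub_const _
      exact hg0.tendsto.comp hneg
    have h2 : g 0 + g 0 - 2 * g 0 = 0 := by ring
    rw [h2] at h1
    exact h1.mono_left nhdsWithin_le_nhds
  have hga : Tendsto (fun x : ℝ => x ^ 2) (𝓝[>] (0 : ℝ)) (𝓝 0) := by
    have h1 : Tendsto (fun x : ℝ => x ^ 2) (𝓝 (0 : ℝ)) (𝓝 (0 ^ 2)) := (continuous_pow 2).tendsto 0
    rw [zero_pow two_ne_zero] at h1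
    exact h1.mono_left nhdsWithin_le_nhds
  have hs := hc.tendsto_slope
  have hdiv : Tendsto (fun x => (g' x - g' (-x)) / (2 * x)) (𝓝[>] (0 : ℝ)) (𝓝 c) := by
    have h1 : Tendsto (fun x => slope g' 0 x) (𝓝[>] (0 : ℝ)) (𝓝 c) :=
      hs.mono_left (nhdsWithin_mono _ fun x hx => (ne_of_gt hx : x ≠ 0))
    have h2 : Tendsto (fun x => slope g' 0 (-x)) (𝓝[>] (0 : ℝ)) (𝓝 c) := by
      refine hs.comp ?_
      refine tendsto_nhdsWithin_iff.2 ⟨hneg.mono_left nhdsWithin_le_nhds, ?_⟩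
      filter_upwards [self_mem_nhdsWithin] with x hx
      have : (0 : ℝ) < x := hx
      exact (neg_ne_zero.2 this.ne' : -x ≠ 0)
    have h3 := (h1.add h2).const_mul (1 / 2)
    have h4 : 1 / 2 * (c + c) = c := by ring
    rw [h4] at h3
    refine h3.congr' ?_
    filter_upwards [self_mem_nhdsWithin] with x hx
    have hx0 : (0 : ℝ) < x := hx
    rw [slope_def_field, slope_def_field, sub_zero, sub_zero]
    have hx1 : x ≠ 0 := hx0.ne'
    field_simp
    ring
  have hmain := HasDerivAt.lhopital_zero_nhdsGT hf hq hq' hfa hga hdiv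
  have hseq : Tendsto (fun k : ℕ => 1 / ((k : ℝ) + 2)) atTop (𝓝[>] (0 : ℝ)) := by
    refine tendsto_nhdsWithin_iff.2 ⟨?_, Eventually.of_forall fun k => ?_⟩
    · have h1 : Tendsto (fun k : ℕ => (k : ℝ) + 2) atTop atTop :=
        tendsto_atTop_add_const_right _ _ tendsto_natCast_atTop_atTop
      simp only [one_div]
      exact tendsto_inv_atTop_zero.comp h1
    · exact (by positivity : (0 : ℝ) < 1 / ((k : ℝ) + 2))
  have h := hmain.comp hseq
  refine h.congr fun k => ?_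
  simp only [Function.comp]
  have : (k : ℝ) + 2 ≠ 0 := by positivity
  field_simp

theorem tendsto_dir {U : ℂ → ℝ} (hU : ContDiffOn ℝ 2 U (ball 0 1)) (v : ℂ) :
    Tendsto (fun k : ℕ => ((k : ℝ) + 2) ^ 2 * (U ((1 / ((k : ℝ) + 2)) • v) +
      U ((-(1 / ((k : ℝ) + 2))) • v) - 2 * U ((0 : ℝ) • v))) atTop
      (𝓝 (fderiv ℝ (fun z => fderiv ℝ U z v) 0 v)) := by
  have hat : ∀ z ∈ ball (0 : ℂ) 1, ContDiffAt ℝ 2 U z := fun z hz =>
    hU.contDiffAt (isOpen_ball.mem_nhds hz)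
  have hv : ∀ t : ℝ, HasDerivAt (fun t : ℝ => t • v) v t := by
    intro t
    simpa using (hasDerivAt_id t).smul_const v
  have hcont : Continuous fun t : ℝ => t • v := by fun_prop
  refine second_diff (g := fun t : ℝ => U (t • v)) (g' := fun t => fderiv ℝ U (t • v) v) ?_ ?_
  · have h1 : ∀ᶠ t in 𝓝 (0 : ℝ), t • v ∈ ball (0 : ℂ) 1 := by
      apply hcont.continuousAt.eventually
      simp only [zero_smul]
      exact isOpen_ball.mem_nhds (mem_ball_self one_pos)
    filter_upwards [h1] with t ht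
    have h2 : DifferentiableAt ℝ U (t • v) := (hat _ ht).differentiableAt (by norm_num)
    exact h2.hasFDerivAt.comp_hasDerivAt t (hv t)
  · have h3 : ContDiffAt ℝ 1 (fderiv ℝ U) 0 :=
      (hat 0 (mem_ball_self one_pos)).fderiv_right (by norm_num)
    have h4 : DifferentiableAt ℝ (fderiv ℝ U) 0 := h3.differentiableAt (by norm_num)
    have h5 : DifferentiableAt ℝ (fun z => fderiv ℝ U z v) 0 := h4.clm_apply (differentiableAt_const v)
    have h6 : HasFDerivAt (fun z => fderiv ℝ U z v) (fderiv ℝ (fun z => fderiv ℝ U z v) 0)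
        ((0 : ℝ) • v) := by
      rw [zero_smul]; exact h5.hasFDerivAt
    exact h6.comp_hasDerivAt 0 (hv 0)

/-- the Laplacian at `0` is a limit of second differences -/
theorem tendsto_lap {U : ℂ → ℝ} (hU : ContDiffOn ℝ 2 U (ball 0 1)) :
    Tendsto (fun k : ℕ => ((k : ℝ) + 2) ^ 2 * (U (1 / ((k : ℂ) + 2)) + U (-(1 / ((k : ℂ) + 2))) +
      U (Complex.I / ((k : ℂ) + 2)) + U (-(Complex.I / ((k : ℂ) + 2))) - 4 * U 0)) atTop
      (𝓝 (lap U 0)) := by
  have h := (tendsto_dir hU 1).add (tendsto_dir hU Complex.I)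
  refine h.congr fun k => ?_
  have e1 : (1 / ((k : ℝ) + 2)) • (1 : ℂ) = 1 / ((k : ℂ) + 2) := by
    rw [Complex.real_smul]; push_cast; ring
  have e2 : (-(1 / ((k : ℝ) + 2))) • (1 : ℂ) = -(1 / ((k : ℂ) + 2)) := by
    rw [Complex.real_smul]; push_cast; ring
  have e3 : (1 / ((k : ℝ) + 2)) • Complex.I = Complex.I / ((k : ℂ) + 2) := by
    rw [Complex.real_smul]; push_cast; ring
  have e4 : (-(1 / ((k : ℝ) + 2))) • Complex.I = -(Complex.I / ((k : ℂ) + 2)) := by
    rw [Complex.real_smul]; push_cast; ring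
  rw [e1, e2, e3, e4, zero_smul, zero_smul]
  ring

theorem pullback_pos_cov {φ : ℂ → M} (hφ : F.IsUniversalCovering φ) : 0 < pullback ω φ 0 := by
  rw [pullback_eq]
  exact qf_pos ω _ (hφ.immersion 0 (mem_ball_self one_pos))


end Pool.Agent.Helper684.GX.Har
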