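import Pool.Agent.Helper684.GX.Har.H2

attribute [local instance] Pool.Agent.Helper684.GX.Nev.leafInst

set_option autoImplicit false

open Set Metric Filter Topology MeasureTheory
open scoped Manifold ComplexConjugate
open Pool.Agent.Helper684.GX.Nev Pool.Agent.Helper684.GX.Ergo

namespace Pool.Agent.Helper684.GX.Har


variable {E M : Type*} [NormedAddCommGroup E] [NormedSpace ℂ E] [TopologicalSpace M]
  [ChartedSpace E M] [IsManifold 𝓘(ℂ, E) 1 M] [MeasurableSpace M]

variable {F : Foliation E M} {ω : PosForm E M} {μ : Measure M} {Φ : M → ℂ → M} {W : M → ℝ}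


theorem measurable_indicator_of_continuousOn {X Y : Type*} [TopologicalSpace X]
    [MeasurableSpace X] [OpensMeasurableSpace X] [TopologicalSpace Y] [MeasurableSpace Y]
    [BorelSpace Y] [Zero Y] {s : Set X} (hs : MeasurableSet s) {f : X → Y}
    (hf : ContinuousOn f s) : Measurable (s.indicator f) := by
  apply measurable_of_restrict_of_restrict_compl hs
  · have : s.domRestrict (s.indicator f) = s.domRestrict f := by
      ext z
      simp only [Set.domRestrict_apply]
      rw [Set.indicator_of_mem z.2]
    rw [this]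
    exact (continuousOn_iff_continuous_domRestrict.1 hf).measurable
  · have : sᶜ.domRestrict (s.indicator f) = fun _ => 0 := by
      ext z
      simp only [Set.domRestrict_apply]
      rw [Set.indicator_of_notMem z.2]
    rw [this]
    exact measurable_const

section
variable [BorelSpace M]

theorem aemeasurable_pullback_chart [FiniteDimensional ℂ E]
    (hΦ : Fam F Φ) (hH : ∀ᵐ x ∂μ, IsHyperbolic F x) {e : OpenPartialHomeomorph M E}
    (he : e ∈ IsManifold.maximalAtlas 𝓘(ℂ, E) 1 M) :
    AEMeasurable (fun x => pullback ω (Φ x) 0) (μ.restrict e.source) := by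
  have : ProperSpace E := FiniteDimensional.proper ℂ E
  borelize E
  have hsm : MeasurableSet e.source := e.open_source.measurableSet
  set et : M → E := e.source.indicator e with hetd
  have het : Measurable et := measurable_indicator_of_continuousOn hsm e.continuousOn
  let g : ℕ → M → E := fun k x => ((k : ℂ) + 2) • (et (Φ x (1 / ((k : ℂ) + 2))) - et x)
  have hg : ∀ k, Measurable (g k) := fun k =>
    ((het.comp (hΦ.meas.comp (measurable_id.prodMk measurable_const))).sub het).const_smul _
  let D : M → E := fun x => deriv (fun z => e (Φ x z)) 0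
  have hlim : ∀ᵐ x ∂(μ.restrict e.source), Tendsto (fun k => g k x) atTop (𝓝 (D x)) := by
    filter_upwards [ae_restrict_of_ae hH, ae_restrict_mem hsm] with x hx hxs
    obtain ⟨hcov, h0⟩ := hΦ.cov x hx
    have hmd : MDifferentiableAt 𝓘(ℂ, ℂ) 𝓘(ℂ, E) (Φ x) 0 :=
      hcov.tangent.mdiffAt (mem_ball_self one_pos)
    have hd := hasDerivAt_chart hmd (e := e) ⟨he, by rw [h0]; exact hxs⟩
    have hd2 : HasDerivAt (fun z => e (Φ x z)) (D x) 0 := by
      have : D x = _ := hd.deriv
      rw [this]; exact hd
    have ht : Tendsto (fun k : ℕ => 1 / ((k : ℂ) + 2)) atTop (𝓝[≠] 0) := by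
      rw [tendsto_nhdsWithin_iff]
      constructor
      · rw [tendsto_zero_iff_norm_tendsto_zero]
        have e1 : (fun k : ℕ => ‖1 / ((k : ℂ) + 2)‖) = fun k : ℕ => 1 / (((k + 1 : ℕ) : ℝ) + 1) := by
          funext k
          rw [norm_div, norm_one]
          congr 1
          have : (k : ℂ) + 2 = ((k + 2 : ℕ) : ℂ) := by push_cast; ring
          rw [this, Complex.norm_natCast]
          push_cast; ring
        rw [e1]
        exact (tendsto_one_div_add_atTop_nhds_zero_nat (𝕜 := ℝ)).comp (tendsto_add_atTop_nat 1)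
      · refine Eventually.of_forall fun k => ?_
        have : (k : ℂ) + 2 ≠ 0 := by
          have : (k : ℂ) + 2 = ((k + 2 : ℕ) : ℂ) := by push_cast; ring
          rw [this]; exact Nat.cast_ne_zero.2 (by omega)
        simp [this]
    have hsl := hd2.tendsto_slope_zero.comp ht
    refine hsl.congr' ?_
    have hev : ∀ᶠ z in 𝓝 (0 : ℂ), Φ x z ∈ e.source := by
      have hc : ContinuousAt (Φ x) 0 := hcov.tangent.contAt (mem_ball_self one_pos)
      apply hc.eventually_mem
      rw [h0]
      exact e.open_source.mem_nhds hxs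
    have hev2 := (ht.mono_right nhdsWithin_le_nhds).eventually hev
    filter_upwards [hev2] with k hk
    simp only [Function.comp_apply, g, hetd]
    rw [Set.indicator_of_mem hk, Set.indicator_of_mem hxs, zero_add, h0, one_div, inv_inv]
  have hD : AEMeasurable D (μ.restrict e.source) :=
    aemeasurable_of_tendsto_metrizable_ae atTop (fun k => (hg k).aemeasurable) hlim
  have hQ : Measurable ((e.target ×ˢ (univ : Set E)).indicator (fun p : E × E => Qe ω e p.1 p.2)) :=
    measurable_indicator_of_continuousOn (e.open_target.prod isOpen_univ).measurableSet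
      (continuousOn_Qe ω he)
  have hP := hQ.comp_aemeasurable (het.aemeasurable.prodMk hD)
  refine hP.congr ?_
  filter_upwards [ae_restrict_of_ae hH, ae_restrict_mem hsm] with x hx hxs
  obtain ⟨hcov, h0⟩ := hΦ.cov x hx
  have hmd : MDifferentiableAt 𝓘(ℂ, ℂ) 𝓘(ℂ, E) (Φ x) 0 :=
    hcov.tangent.mdiffAt (mem_ball_self one_pos)
  rw [pullback_chart ω hmd (e := e) ⟨he, by rw [h0]; exact hxs⟩]
  simp only [Function.comp_apply, hetd, D]
  have hmem : (e x, deriv (fun z => e (Φ x z)) 0) ∈ e.target ×ˢ (univ : Set E) :=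
    ⟨e.map_source hxs, mem_univ _⟩
  rw [Set.indicator_of_mem hxs, Set.indicator_of_mem hmem, h0]

theorem aemeasurable_pullback [FiniteDimensional ℂ E] [T2Space M] [CompactSpace M]
    (hΦ : Fam F Φ) (hH : ∀ᵐ x ∂μ, IsHyperbolic F x) :
    AEMeasurable (fun x => pullback ω (Φ x) 0) μ := by
  obtain ⟨t, ht⟩ := isCompact_univ.elim_finite_subcover (fun x : M => (chartAt E x).source)
    (fun x => (chartAt E x).open_source) (fun x _ => mem_iUnion.2 ⟨x, mem_chart_source E x⟩)
  have hU : (⋃ i : t, (chartAt E (i : M)).source) = univ := by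
    apply eq_univ_of_univ_subset
    intro x hx
    obtain ⟨i, hi, hxi⟩ := mem_iUnion₂.1 (ht hx)
    exact mem_iUnion.2 ⟨⟨i, hi⟩, hxi⟩
  rw [← Measure.restrict_univ (μ := μ), ← hU, aemeasurable_iUnion_iff]
  intro i
  exact aemeasurable_pullback_chart hΦ hH (IsManifold.chart_mem_maximalAtlas _)

end


end Pool.Agent.Helper684.GX.Har
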