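import Pool.Agent.Helper684.GX.Har.H5

attribute [local instance] Pool.Agent.Helper684.GX.Nev.leafInst

set_option autoImplicit false

open Set Metric Filter Topology MeasureTheory
open scoped Manifold ComplexConjugate
open Pool.Agent.Helper684.GX.Nev Pool.Agent.Helper684.GX.Ergo

namespace Pool.Agent.Helper684.GX.Har


variable {E M : Type*} [NormedAddCommGroup E] [NormedSpace ℂ E] [TopologicalSpace M]
  [ChartedSpace E M] [IsManifold 𝓘(ℂ, E) 1 M] [MeasurableSpace M]

variable {F : Foliation E M} {ω : PosForm E M} {μ : Measure M} {Φ : M → ℂ → M} {W : M → ℝ}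


/-- the cut-off function -/
noncomputable def eta (s : ℝ) : ℝ := Real.smoothTransition (2 - 2 * s)

theorem eta_contDiff : ContDiff ℝ 2 eta := by
  unfold eta
  exact Real.smoothTransition.contDiff.comp (contDiff_const.sub (contDiff_const.mul contDiff_id))

theorem eta_one {s : ℝ} (hs : s ≤ 1 / 2) : eta s = 1 :=
  Real.smoothTransition.one_of_one_le (by linarith)

theorem eta_zero {s : ℝ} (hs : 1 ≤ s) : eta s = 0 :=
  Real.smoothTransition.zero_of_nonpos (by linarith)

theorem eta_nonneg (s : ℝ) : 0 ≤ eta s := Real.smoothTransition.nonneg _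

theorem eta_le_one (s : ℝ) : eta s ≤ 1 := Real.smoothTransition.le_one _

theorem eta_deriv_out {s : ℝ} (hs : 1 < s) : deriv eta s = 0 ∧ deriv (deriv eta) s = 0 := by
  have h1 : ∀ r : ℝ, 1 < r → deriv eta r = 0 := by
    intro r hr
    have : eta =ᶠ[𝓝 r] fun _ => 0 := by
      filter_upwards [lt_mem_nhds hr] with y hy
      exact eta_zero (le_of_lt hy)
    rw [this.deriv_eq, deriv_const]
  refine ⟨h1 s hs, ?_⟩
  have : deriv eta =ᶠ[𝓝 s] fun _ => 0 := by
    filter_upwards [lt_mem_nhds hs] with y hy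
    exact h1 y hy
  rw [this.deriv_eq, deriv_const]

theorem eta_deriv_out' {s : ℝ} (hs : s < 1 / 2) : deriv eta s = 0 ∧ deriv (deriv eta) s = 0 := by
  have h1 : ∀ r : ℝ, r < 1 / 2 → deriv eta r = 0 := by
    intro r hr
    have : eta =ᶠ[𝓝 r] fun _ => 1 := by
      filter_upwards [gt_mem_nhds hr] with y hy
      exact eta_one (le_of_lt hy)
    rw [this.deriv_eq, deriv_const]
  refine ⟨h1 s hs, ?_⟩
  have : deriv eta =ᶠ[𝓝 s] fun _ => 0 := by
    filter_upwards [gt_mem_nhds hs] with y hy
    exact h1 y hy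
  rw [this.deriv_eq, deriv_const]

theorem eta_deriv_contDiff : ContDiff ℝ 1 (deriv eta) := by
  have h2 : ContDiff ℝ (1 + 1) eta := by
    have := eta_contDiff
    norm_num; exact this
  exact ((contDiff_succ_iff_deriv (n := 1)).1 h2).2.2

theorem eta_bound : ∃ D : ℝ, 0 ≤ D ∧ ∀ s, |deriv eta s| ≤ D ∧ |deriv (deriv eta) s| ≤ D := by
  have hc1 : Continuous (deriv eta) := eta_contDiff.continuous_deriv (by norm_num)
  have hc2 : Continuous (deriv (deriv eta)) := by
    exact eta_deriv_contDiff.continuous_deriv le_rfl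
  obtain ⟨D1, hD1⟩ := (isCompact_Icc (a := (0:ℝ)) (b := 2)).exists_bound_of_continuousOn
    hc1.continuousOn
  obtain ⟨D2, hD2⟩ := (isCompact_Icc (a := (0:ℝ)) (b := 2)).exists_bound_of_continuousOn
    hc2.continuousOn
  refine ⟨max (max D1 D2) 0, le_max_right _ _, fun s => ?_⟩
  by_cases hs : s ∈ Icc (0:ℝ) 2
  · exact ⟨(hD1 s hs).trans ((le_max_left _ _).trans (le_max_left _ _)),
      (hD2 s hs).trans ((le_max_right _ _).trans (le_max_left _ _))⟩
  · rw [mem_Icc, not_and_or] at hs
    push Not at hs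
    rcases hs with h | h
    · obtain ⟨h1, h2⟩ := eta_deriv_out' (s := s) (by linarith)
      rw [h1, h2, abs_zero]; exact ⟨le_max_right _ _, le_max_right _ _⟩
    · obtain ⟨h1, h2⟩ := eta_deriv_out (s := s) (by linarith)
      rw [h1, h2, abs_zero]; exact ⟨le_max_right _ _, le_max_right _ _⟩

/-- scaled cut-off -/
noncomputable def chi (n s : ℝ) : ℝ := eta (s / n)

theorem chi_contDiff (n : ℝ) : ContDiff ℝ 2 (chi n) :=
  eta_contDiff.comp (contDiff_id.div_const n)

theorem chi_zero {n : ℝ} (hn : 0 < n) (s : ℝ) (hs : n ≤ s) : chi n s = 0 :=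
  eta_zero (by rw [le_div_iff₀ hn]; linarith)

theorem abs_chi_le (n s : ℝ) : |chi n s| ≤ 1 := by
  unfold chi
  rw [abs_of_nonneg (eta_nonneg _)]
  exact eta_le_one _

theorem deriv_chi (n s : ℝ) : deriv (chi n) s = deriv eta (s / n) / n := by
  have h1 : HasDerivAt eta (deriv eta (s / n)) (s / n) :=
    (eta_contDiff.differentiable (by norm_num) _).hasDerivAt
  have h2 : HasDerivAt (fun s : ℝ => s / n) (1 / n) s := (hasDerivAt_id s).div_const n
  have h3 := h1.comp s h2
  have : deriv (chi n) s = deriv eta (s / n) * (1 / n) := h3.deriv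
  rw [this]; ring

theorem deriv2_chi (n s : ℝ) : deriv (deriv (chi n)) s = deriv (deriv eta) (s / n) / n ^ 2 := by
  have e : deriv (chi n) = fun s => deriv eta (s / n) / n := funext (deriv_chi n)
  rw [e]
  have hd : Differentiable ℝ (deriv eta) := eta_deriv_contDiff.differentiable (by norm_num)
  have h1 : HasDerivAt (deriv eta) (deriv (deriv eta) (s / n)) (s / n) := (hd _).hasDerivAt
  have h2 : HasDerivAt (fun s : ℝ => s / n) (1 / n) s := (hasDerivAt_id s).div_const n
  have h3 := (h1.comp s h2).div_const n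
  have : deriv (fun s => deriv eta (s / n) / n) s = deriv (deriv eta) (s / n) * (1 / n) / n :=
    h3.deriv
  rw [this]; ring

/-- points of a covered leaf are hyperbolic -/
theorem hyperbolic_of_cov {φ : ℂ → M} (hφ : F.IsUniversalCovering φ) {z : ℂ}
    (hz : z ∈ ball (0 : ℂ) 1) : IsHyperbolic F (φ z) := by
  refine ⟨fun w => φ (mob z w), universalCovering_mob hφ hz, ?_⟩
  simp [mob]

omit [IsManifold 𝓘(ℂ, E) 1 M] in
theorem fderiv_comp_real {χ : ℝ → ℝ} {U : ℂ → ℝ} {w : ℂ} (hχ : DifferentiableAt ℝ χ (U w))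
    (hU : DifferentiableAt ℝ U w) :
    fderiv ℝ (fun z => χ (U z)) w = deriv χ (U w) • fderiv ℝ U w :=
  (hχ.hasDerivAt.comp_hasFDerivAt w hU.hasFDerivAt).fderiv

/-- the pointwise estimate -/
theorem point_est {D B n : ℝ} (hn : 0 < n) (hD0 : 0 ≤ D)
    (hD : ∀ s, |deriv eta s| ≤ D ∧ |deriv (deriv eta) s| ≤ D)
    {U V : ℂ → ℝ} (hU : ContDiffAt ℝ 2 U 0) (hV : ContDiffAt ℝ 2 V 0) (hB : |V 0| ≤ B) :
    |lap (fun z => chi n (U z) * V z) 0 - chi n (U 0) * lap V 0| ≤
      (if U 0 ≤ n then 1 else 0) * (B * (D / n * |lap U 0| + 2 * D / n ^ 2 * ‖fderiv ℝ U 0‖ ^ 2) +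
        4 * (D / n) * (‖fderiv ℝ U 0‖ * ‖fderiv ℝ V 0‖)) := by
  have hχ : ContDiffAt ℝ 2 (chi n) (U 0) := (chi_contDiff n).contDiffAt
  have hX : ContDiffAt ℝ 2 (fun z => chi n (U z)) 0 := hχ.comp 0 hU
  have h1 := abs_lap_mul_sub hX hV
  have h2 := lap_comp_real hχ hU
  have h3 := fderiv_comp_real (hχ.differentiableAt (by norm_num))
    (hU.differentiableAt (by norm_num))
  rw [h2, h3, deriv_chi, deriv2_chi] at h1
  by_cases hc : U 0 ≤ n
  · rw [if_pos hc, one_mul]
    set g := fderiv ℝ U 0 with hg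
    obtain ⟨hd1, hd2⟩ := hD (U 0 / n)
    have e1 : |deriv eta (U 0 / n) / n| ≤ D / n := by
      rw [abs_div, abs_of_pos hn]; gcongr
    have e2 : |deriv (deriv eta) (U 0 / n) / n ^ 2| ≤ D / n ^ 2 := by
      rw [abs_div, abs_of_pos (by positivity : (0:ℝ) < n ^ 2)]; gcongr
    have e3 : |(g 1) ^ 2 + (g Complex.I) ^ 2| ≤ 2 * ‖g‖ ^ 2 := by
      have i1 : |g 1| ≤ ‖g‖ := by
        have := g.le_opNorm 1; rwa [norm_one, mul_one] at this
      have i2 : |g Complex.I| ≤ ‖g‖ := by
        have := g.le_opNorm Complex.I; rwa [Complex.norm_I, mul_one] at this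
      rw [abs_of_nonneg (by positivity)]
      have j1 : (g 1) ^ 2 ≤ ‖g‖ ^ 2 := by rw [← sq_abs]; gcongr
      have j2 : (g Complex.I) ^ 2 ≤ ‖g‖ ^ 2 := by rw [← sq_abs (g Complex.I)]; gcongr
      linarith
    have e4 : ‖(deriv eta (U 0 / n) / n) • g‖ ≤ D / n * ‖g‖ := by
      rw [norm_smul, Real.norm_eq_abs]; gcongr
    have e5 : |deriv eta (U 0 / n) / n * lap U 0 +
        deriv (deriv eta) (U 0 / n) / n ^ 2 * ((g 1) ^ 2 + (g Complex.I) ^ 2)| ≤
        D / n * |lap U 0| + 2 * D / n ^ 2 * ‖g‖ ^ 2 := by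
      refine (abs_add_le _ _).trans ?_
      rw [abs_mul, abs_mul]
      have k1 : |deriv eta (U 0 / n) / n| * |lap U 0| ≤ D / n * |lap U 0| := by gcongr
      have k2 : |deriv (deriv eta) (U 0 / n) / n ^ 2| * |(g 1) ^ 2 + (g Complex.I) ^ 2| ≤
          D / n ^ 2 * (2 * ‖g‖ ^ 2) := by gcongr
      have k3 : D / n ^ 2 * (2 * ‖g‖ ^ 2) = 2 * D / n ^ 2 * ‖g‖ ^ 2 := by ring
      linarith
    have hB0 : 0 ≤ B := (abs_nonneg _).trans hB
    set Y := deriv eta (U 0 / n) / n * lap U 0 +
        deriv (deriv eta) (U 0 / n) / n ^ 2 * ((g 1) ^ 2 + (g Complex.I) ^ 2) with hY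
    have e6 : |V 0 * Y| ≤ B * (D / n * |lap U 0| + 2 * D / n ^ 2 * ‖g‖ ^ 2) := by
      rw [abs_mul]; gcongr
    have e7 : 4 * (‖(deriv eta (U 0 / n) / n) • g‖ * ‖fderiv ℝ V 0‖) ≤
        4 * (D / n) * (‖g‖ * ‖fderiv ℝ V 0‖) := by
      have : ‖(deriv eta (U 0 / n) / n) • g‖ * ‖fderiv ℝ V 0‖ ≤ D / n * ‖g‖ * ‖fderiv ℝ V 0‖ := by
        gcongr
      nlinarith
    have e8 : lap (fun z => chi n (U z) * V z) 0 - chi n (U 0) * lap V 0 =
        (lap (fun z => chi n (U z) * V z) 0 - (chi n (U 0) * lap V 0 + V 0 * Y)) + V 0 * Y := by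
      ring
    rw [e8]
    refine (abs_add_le _ _).trans ?_
    linarith
  · rw [if_neg hc, zero_mul]
    push Not at hc
    obtain ⟨z1, z2⟩ := eta_deriv_out (s := U 0 / n) (by rw [lt_div_iff₀ hn]; linarith)
    rw [z1, z2] at h1
    simp only [zero_div, zero_mul, add_zero, mul_zero, zero_smul, norm_zero] at h1
    exact h1

omit [IsManifold 𝓘(ℂ, E) 1 M] [MeasurableSpace M] in
theorem mem_ball0 : (0 : ℂ) ∈ ball (0 : ℂ) 1 := mem_ball_self one_pos

/-- **Harmonicity for functions which are not compactly supported.** -/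
theorem harmonic [BorelSpace M] [FiniteDimensional ℂ E] [T2Space M] [CompactSpace M]
    [IsFiniteMeasure μ] (hΦ : Fam F Φ) (hH : ∀ᵐ x ∂μ, IsHyperbolic F x)
    (hT : Test F ω μ Φ) (hW : Barrier F ω W) {u : M → ℝ} (hu : Measurable u)
    (hB : ∃ B, ∀ x, |u x| ≤ B)
    (hR : ∃ C, LeafBound F u (fun φ => C * (1 + pullback ω φ 0))) :
    Integrable (fun x => lap (fun z => u (Φ x z)) 0 / pullback ω (Φ x) 0) μ ∧
      ∫ x, lap (fun z => u (Φ x z)) 0 / pullback ω (Φ x) 0 ∂μ = 0 := by
  classical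
  obtain ⟨D, hD0, hD⟩ := eta_bound
  obtain ⟨B, hB0, hB⟩ : ∃ B, 0 ≤ B ∧ ∀ x, |u x| ≤ B := by
    obtain ⟨B, hB⟩ := hB
    exact ⟨max B 0, le_max_right _ _, fun x => (hB x).trans (le_max_left _ _)⟩
  obtain ⟨C, hC0, hR⟩ : ∃ C, 0 ≤ C ∧ LeafBound F u (fun φ => C * (1 + pullback ω φ 0)) := by
    obtain ⟨C, hC⟩ := hR
    refine ⟨max C 0, le_max_right _ _, fun φ hφ => ?_⟩
    obtain ⟨h1, h2, h3⟩ := hC φ hφ
    have hp : 0 < pullback ω φ 0 := pullback_pos_cov hφ
    have h4 : C * (1 + pullback ω φ 0) ≤ max C 0 * (1 + pullback ω φ 0) :=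
      mul_le_mul_of_nonneg_right (le_max_left _ _) (by linarith)
    exact ⟨h1, h2.trans h4, h3.trans h4⟩
  obtain ⟨C0, hC00, hW1⟩ : ∃ C0, 0 ≤ C0 ∧ ∀ φ, F.IsUniversalCovering φ →
      ContDiffOn ℝ 2 (fun z => W (φ z)) (ball 0 1) ∧
      |lap (fun z => W (φ z)) 0| ≤ 8 + C0 * pullback ω φ 0 := by
    obtain ⟨C0, h0⟩ := hW.lap
    refine ⟨max C0 0, le_max_right _ _, fun φ hφ => ?_⟩
    obtain ⟨h1, h2⟩ := h0 φ hφ
    have hp : 0 < pullback ω φ 0 := pullback_pos_cov hφ
    have h4 : C0 * pullback ω φ 0 ≤ max C0 0 * pullback ω φ 0 :=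
      mul_le_mul_of_nonneg_right (le_max_left _ _) hp.le
    refine ⟨h1, ?_⟩
    have h5 := abs_le.1 h2
    rw [abs_le]
    constructor <;> linarith [h5.1, h5.2]
  obtain ⟨hfin, hgr⟩ := finite_mass hΦ hH hT hW
  obtain ⟨C2, hC20, hgr⟩ : ∃ C2 : ℝ, 0 ≤ C2 ∧ ∀ n : ℝ, 1 ≤ n → ∫⁻ x in {x | W x ≤ n},
        ENNReal.ofReal (‖fderiv ℝ (fun z => W (Φ x z)) 0‖ ^ 2 / pullback ω (Φ x) 0) ∂μ ≤
          ENNReal.ofReal (C2 * n) := by
    obtain ⟨C2, h⟩ := hgr
    refine ⟨max C2 0, le_max_right _ _, fun n hn => (h n hn).trans ?_⟩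
    apply ENNReal.ofReal_le_ofReal
    exact mul_le_mul_of_nonneg_right (le_max_left _ _) (by linarith)
  -- notation
  set P : M → ℝ := fun x => pullback ω (Φ x) 0 with hPdef
  set L : M → ℝ := fun x => lap (fun z => u (Φ x z)) 0 with hLdef
  set g : M → ℝ := fun x => ‖fderiv ℝ (fun z => W (Φ x z)) 0‖ ^ 2 / P x with hgdef
  have hPpos : ∀ᵐ x ∂μ, 0 < P x := hH.mono fun x hx => pullback_pos_cov (hΦ.cov x hx).1
  have hPm : AEMeasurable P μ := aemeasurable_pullback hΦ hH
  have hLm : AEMeasurable L μ := aemeasurable_lap hΦ hH hu hR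
  have hqI : Integrable (fun x => 1 / P x) μ := by
    refine ⟨(hPm.const_div 1).aestronglyMeasurable, ?_⟩
    rw [hasFiniteIntegral_iff_ofReal (hPpos.mono fun x hx => by positivity)]
    exact hfin
  have hgm : AEMeasurable g μ := by
    have hRW : LeafBound F W (fun φ => |lap (fun z => W (φ z)) 0| +
        ‖fderiv ℝ (fun z => W (φ z)) 0‖ ^ 2) := by
      intro φ hφ
      refine ⟨(hW1 φ hφ).1, ?_, ?_⟩
      · have := sq_nonneg ‖fderiv ℝ (fun z => W (φ z)) 0‖; linarith
      · have := abs_nonneg (lap (fun z => W (φ z)) 0); linarith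
    exact ((aemeasurable_grad hΦ hH hW.meas hRW).norm.pow_const 2).div hPm
  have hg0 : ∀ᵐ x ∂μ, 0 ≤ g x := hPpos.mono fun x hx => by
    simp only [g]; positivity
  have hbase : ∀ᵐ x ∂μ, |L x / P x| ≤ C * (1 / P x + 1) ∧
      ‖fderiv ℝ (fun z => u (Φ x z)) 0‖ ^ 2 / P x ≤ C * (1 / P x + 1) := by
    filter_upwards [hH, hPpos] with x hx hp
    obtain ⟨_, h2, h3⟩ := hR (Φ x) (hΦ.cov x hx).1
    have e : C * (1 / P x + 1) = C * (1 + P x) / P x := by field_simp
    rw [e, abs_div, abs_of_pos hp]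
    exact ⟨div_le_div_of_nonneg_right h2 hp.le, div_le_div_of_nonneg_right h3 hp.le⟩
  have hLI : Integrable (fun x => L x / P x) μ := by
    apply Integrable.mono' (g := fun x => C * (1 / P x + 1))
    · exact (hqI.add (integrable_const 1)).const_mul C
    · exact (hLm.div hPm).aestronglyMeasurable
    · filter_upwards [hbase] with x hx using hx.1
  refine ⟨hLI, ?_⟩
  -- the constants
  set m : ℝ := ∫ x, 1 / P x ∂μ with hm
  set μ1 : ℝ := μ.real univ with hμ1
  set K : ℝ := B * D * (8 * m + C0 * μ1) + (2 * B * D + 2 * D) * C2 + 2 * D * C * (m + μ1) with hK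
  have hm0 : 0 ≤ m := integral_nonneg_of_ae (hPpos.mono fun x hx => by
    show 0 ≤ 1 / P x; positivity)
  have hμ10 : 0 ≤ μ1 := measureReal_nonneg
  -- the approximations
  have key : ∀ k : ℕ, 1 ≤ k → |∫ x, chi ((k:ℝ) ^ 2) (W x) * (L x / P x) ∂μ| ≤ K / k := by
    intro k hk
    have hk1 : (1:ℝ) ≤ k := by exact_mod_cast hk
    have hk0 : (0:ℝ) < k := by linarith
    set n : ℝ := (k:ℝ) ^ 2 with hn
    have hn1 : 1 ≤ n := by rw [hn]; nlinarith
    have hn0 : 0 < n := by linarith
    obtain ⟨Kn, hKc, hKs, hKm⟩ := hW.proper n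
    obtain ⟨C', hv⟩ := leafBound_mul hW (chi_contDiff n) (fun s hs => chi_zero hn0 s hs) hB hR
    -- the test function
    let v : M → ℝ := fun x => if x ∈ Kn then chi n (W x) * u x else 0
    have hveq : ∀ x, IsHyperbolic F x → v x = chi n (W x) * u x := by
      intro x hx
      by_cases h : x ∈ Kn
      · simp only [v, h, if_true]
      · have : n < W x := by
          by_contra hcon
          push Not at hcon
          exact h (hKm x hx hcon)
        simp only [v, h, if_false]
        rw [chi_zero hn0 _ this.le, zero_mul]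
    have hvm : Measurable v :=
      Measurable.ite hKc.measurableSet
        (((chi_contDiff n).continuous.measurable.comp hW.meas).mul hu) measurable_const
    have hvB : ∃ B, ∀ x, |v x| ≤ B := by
      refine ⟨B, fun x => ?_⟩
      by_cases h : x ∈ Kn
      · simp only [v, h, if_true]
        rw [abs_mul]
        have : |chi n (W x)| ≤ 1 := abs_chi_le _ _
        calc |chi n (W x)| * |u x| ≤ 1 * B :=
              mul_le_mul this (hB x) (abs_nonneg _) zero_le_one
          _ = B := one_mul B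
      · simp only [v, h, if_false, abs_zero]; exact hB0
    have hvK : ∃ K, IsCompact K ∧ Disjoint K F.sing ∧ ∀ x, x ∉ K → v x = 0 :=
      ⟨Kn, hKc, hKs, fun x hx => by simp only [v, hx, if_false]⟩
    have hvball : ∀ φ : ℂ → M, F.IsUniversalCovering φ → ∀ z ∈ ball (0 : ℂ) 1,
        v (φ z) = chi n (W (φ z)) * u (φ z) :=
      fun φ hφ z hz => hveq _ (hyperbolic_of_cov hφ hz)
    have hvev : ∀ φ : ℂ → M, F.IsUniversalCovering φ →
        (fun z => v (φ z)) =ᶠ[𝓝 0] fun z => chi n (W (φ z)) * u (φ z) := by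
      intro φ hφ
      filter_upwards [isOpen_ball.mem_nhds mem_ball0] with z hz
      exact hvball φ hφ z hz
    have hvL : LeafBound F v (fun φ => C' * pullback ω φ 0) := by
      intro φ hφ
      obtain ⟨h1, h2, h3⟩ := hv φ hφ
      refine ⟨h1.congr (fun z hz => hvball φ hφ z hz), ?_, ?_⟩
      · rw [lap_congr (hvev φ hφ)]; exact h2
      · rw [(hvev φ hφ).fderiv_eq]; exact h3
    have hv0 := hT v hvm hvB hvK ⟨C', hvL⟩
    set b : M → ℝ := fun x => lap (fun z => v (Φ x z)) 0 / P x with hb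
    have hbm : AEMeasurable b μ := (aemeasurable_lap hΦ hH hvm hvL).div hPm
    have hbI : Integrable b μ := by
      apply Integrable.mono' (g := fun _ => C') (integrable_const _) hbm.aestronglyMeasurable
      filter_upwards [hH, hPpos] with x hx hp
      obtain ⟨_, h2, _⟩ := hvL (Φ x) (hΦ.cov x hx).1
      rw [Real.norm_eq_abs]
      show |lap (fun z => v (Φ x z)) 0 / P x| ≤ C'
      rw [abs_div, abs_of_pos hp, div_le_iff₀ hp]
      exact h2
    set a : M → ℝ := fun x => chi n (W x) * (L x / P x) with ha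
    have hchim : Measurable (fun x => chi n (W x)) :=
      (chi_contDiff n).continuous.measurable.comp hW.meas
    have haI : Integrable a μ := by
      apply Integrable.mono' (g := fun x => |L x / P x|) hLI.abs
      · exact (hchim.aemeasurable.mul (hLm.div hPm)).aestronglyMeasurable
      · filter_upwards with x
        rw [Real.norm_eq_abs, abs_mul]
        have : |chi n (W x)| ≤ 1 := abs_chi_le _ _
        calc |chi n (W x)| * |L x / P x| ≤ 1 * |L x / P x| :=
              mul_le_mul_of_nonneg_right this (abs_nonneg _)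
          _ = _ := one_mul _
    -- the error function
    set S : Set M := {x | W x ≤ n} with hS
    have hSm : MeasurableSet S := measurableSet_le hW.meas measurable_const
    have hgS : Integrable (S.indicator g) μ := by
      rw [integrable_indicator_iff hSm]
      refine ⟨hgm.restrict.aestronglyMeasurable, ?_⟩
      rw [hasFiniteIntegral_iff_ofReal (ae_restrict_of_ae hg0)]
      exact (hgr n hn1).trans_lt ENNReal.ofReal_lt_top
    have hgS2 : ∫ x, S.indicator g x ∂μ ≤ C2 * n := by
      rw [integral_indicator hSm, integral_eq_lintegral_of_nonneg_ae (ae_restrict_of_ae hg0)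
        hgm.restrict.aestronglyMeasurable]
      exact ENNReal.toReal_le_of_le_ofReal (by positivity) (hgr n hn1)
    let err : M → ℝ := fun x => B * (D / n) * (8 * (1 / P x) + C0) +
      (2 * B * D / n ^ 2 + 2 * D / (n * k)) * S.indicator g x +
      2 * D / k * C * (1 / P x + 1)
    have herrI : Integrable err μ :=
      (((hqI.const_mul 8).add (integrable_const C0)).const_mul _).add (hgS.const_mul _) |>.add
        ((hqI.add (integrable_const 1)).const_mul _)
    have herr : ∀ᵐ x ∂μ, |a x - b x| ≤ err x := by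
      filter_upwards [hH, hPpos, hbase, hg0] with x hx hp hbx hgx
      have hcov := (hΦ.cov x hx).1
      have hbase0 := (hΦ.cov x hx).2
      have hU := ((hW1 (Φ x) hcov).1).contDiffAt (isOpen_ball.mem_nhds mem_ball0)
      have hV := ((hR (Φ x) hcov).1).contDiffAt (isOpen_ball.mem_nhds mem_ball0)
      have hVB : |u (Φ x 0)| ≤ B := hB _
      have hpt := point_est hn0 hD0 hD hU hV hVB
      simp only [hbase0] at hpt
      have hlapW := (hW1 (Φ x) hcov).2
      set G := ‖fderiv ℝ (fun z => W (Φ x z)) 0‖ with hG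
      set H := ‖fderiv ℝ (fun z => u (Φ x z)) 0‖ with hHd
      have hG0 : 0 ≤ G := norm_nonneg _
      have hH0 : 0 ≤ H := norm_nonneg _
      have e1 : a x - b x = -(lap (fun z => chi n (W (Φ x z)) * u (Φ x z)) 0 - chi n (W x) * L x) / P x := by
        simp only [a, b]
        rw [lap_congr (hvev (Φ x) hcov)]
        field_simp
        ring
      rw [e1, abs_div, abs_neg, abs_of_pos hp, div_le_iff₀ hp]
      refine hpt.trans ?_
      have hgx' : g x * P x = G ^ 2 := div_mul_cancel₀ _ hp.ne'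
      have hH2 : H ^ 2 ≤ C * (1 / P x + 1) * P x := by
        have := hbx.2
        rwa [div_le_iff₀ hp] at this
      have hnk : n = k * k := by rw [hn]; ring
      have hamgm : G * H ≤ (G ^ 2 / k + k * H ^ 2) / 2 := by
        have h9 : 0 ≤ (G - k * H) ^ 2 / k := by positivity
        have h10 : (G - k * H) ^ 2 / k = G ^ 2 / k + k * H ^ 2 - 2 * (G * H) := by
          field_simp; ring
        linarith
      by_cases hc : W x ≤ n
      · have hxS : x ∈ S := hc
        rw [if_pos hc, one_mul]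
        simp only [err, Set.indicator_of_mem hxS]
        have t1 : B * (D / n * |lap (fun z => W (Φ x z)) 0| + 2 * D / n ^ 2 * G ^ 2) ≤
            B * (D / n * (8 + C0 * P x) + 2 * D / n ^ 2 * G ^ 2) := by
          gcongr
        have t2 : 4 * (D / n) * (G * H) ≤ 4 * (D / n) * ((G ^ 2 / k + k * H ^ 2) / 2) := by
          gcongr
        have t3 : 4 * (D / n) * ((G ^ 2 / k + k * H ^ 2) / 2) =
            2 * D / (n * k) * G ^ 2 + 2 * D / k * H ^ 2 := by
          rw [hnk]; field_simp; ring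
        have t4 : 2 * D / k * H ^ 2 ≤ 2 * D / k * (C * (1 / P x + 1) * P x) := by
          gcongr
        have t5 : (B * (D / n) * (8 * (1 / P x) + C0) +
            (2 * B * D / n ^ 2 + 2 * D / (n * k)) * g x +
            2 * D / k * C * (1 / P x + 1)) * P x =
            B * (D / n * (8 + C0 * P x) + 2 * D / n ^ 2 * (g x * P x)) +
            2 * D / (n * k) * (g x * P x) + 2 * D / k * (C * (1 / P x + 1) * P x) := by
          field_simp
          ring
        rw [t5, hgx']
        linarith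
      · have hxS : x ∉ S := hc
        rw [if_neg hc, zero_mul]
        simp only [err, Set.indicator_of_notMem hxS]
        positivity
    have h1 : ∫ x, a x ∂μ = ∫ x, (a x - b x) ∂μ := by
      rw [integral_sub haI hbI, hv0, sub_zero]
    rw [h1]
    have h2 : |∫ x, (a x - b x) ∂μ| ≤ ∫ x, err x ∂μ := by
      refine (abs_integral_le_integral_abs).trans ?_
      exact integral_mono_ae (haI.sub hbI).abs herrI herr
    refine h2.trans ?_
    have h3 : ∫ x, err x ∂μ = B * (D / n) * (8 * m + C0 * μ1) +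
        (2 * B * D / n ^ 2 + 2 * D / (n * k)) * ∫ x, S.indicator g x ∂μ +
        2 * D / k * C * (m + μ1) := by
      simp only [err]
      rw [integral_add, integral_add, integral_const_mul, integral_const_mul, integral_const_mul,
        integral_add, integral_add, integral_const_mul]
      · simp only [integral_const, smul_eq_mul]
        rw [← hm, ← hμ1]; ring
      · exact hqI
      · exact integrable_const 1
      · exact hqI.const_mul 8
      · exact integrable_const C0
      · exact ((hqI.const_mul 8).add (integrable_const C0)).const_mul _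
      · exact hgS.const_mul _
      · exact (((hqI.const_mul 8).add (integrable_const C0)).const_mul _).add (hgS.const_mul _)
      · exact (hqI.add (integrable_const 1)).const_mul _
    rw [h3]
    have hnk : n = k * k := by rw [hn]; ring
    have i1 : B * (D / n) * (8 * m + C0 * μ1) ≤ B * D * (8 * m + C0 * μ1) / k := by
      have : D / n ≤ D / k := by
        apply div_le_div_of_nonneg_left hD0 hk0; rw [hnk]; nlinarith
      calc B * (D / n) * (8 * m + C0 * μ1) ≤ B * (D / k) * (8 * m + C0 * μ1) := by gcongr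
        _ = _ := by ring
    have i2 : (2 * B * D / n ^ 2 + 2 * D / (n * k)) * ∫ x, S.indicator g x ∂μ ≤
        (2 * B * D + 2 * D) * C2 / k := by
      have j1 : (2 * B * D / n ^ 2 + 2 * D / (n * k)) * ∫ x, S.indicator g x ∂μ ≤
          (2 * B * D / n ^ 2 + 2 * D / (n * k)) * (C2 * n) := by
        gcongr
      have j2 : (2 * B * D / n ^ 2 + 2 * D / (n * k)) * (C2 * n) =
          2 * B * D * C2 / n + 2 * D * C2 / k := by
        field_simp
      have j3 : 2 * B * D * C2 / n ≤ 2 * B * D * C2 / k := by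
        apply div_le_div_of_nonneg_left (by positivity) hk0; rw [hnk]; nlinarith
      have j4 : (2 * B * D + 2 * D) * C2 / k = 2 * B * D * C2 / k + 2 * D * C2 / k := by ring
      linarith
    have i3 : 2 * D / k * C * (m + μ1) = 2 * D * C * (m + μ1) / k := by ring
    have i4 : K / k = B * D * (8 * m + C0 * μ1) / k + (2 * B * D + 2 * D) * C2 / k +
        2 * D * C * (m + μ1) / k := by rw [hK]; ring
    linarith
  -- the limit
  have hlim1 : Tendsto (fun k : ℕ => ∫ x, chi ((k:ℝ) ^ 2) (W x) * (L x / P x) ∂μ) atTop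
      (𝓝 (∫ x, L x / P x ∂μ)) := by
    apply tendsto_integral_of_dominated_convergence (fun x => |L x / P x|)
    · intro k
      exact ((((chi_contDiff _).continuous.measurable.comp hW.meas).aemeasurable).mul
        (hLm.div hPm)).aestronglyMeasurable
    · exact hLI.abs
    · intro k
      filter_upwards with x
      rw [Real.norm_eq_abs, abs_mul]
      have : |chi ((k:ℝ) ^ 2) (W x)| ≤ 1 := abs_chi_le _ _
      calc |chi ((k:ℝ) ^ 2) (W x)| * |L x / P x| ≤ 1 * |L x / P x| :=
            mul_le_mul_of_nonneg_right this (abs_nonneg _)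
        _ = _ := one_mul _
    · filter_upwards with x
      apply tendsto_const_nhds.congr'
      obtain ⟨N, hN⟩ := exists_nat_ge (2 * |W x| + 1)
      filter_upwards [Filter.eventually_ge_atTop N] with k hk
      have hk1 : (2 * |W x| + 1) ≤ (k:ℝ) := hN.trans (by exact_mod_cast hk)
      have h0 := abs_nonneg (W x)
      have h1 : (1:ℝ) ≤ k := by linarith
      have : chi ((k:ℝ) ^ 2) (W x) = 1 := by
        apply eta_one
        rw [div_le_iff₀ (by positivity)]
        have := le_abs_self (W x)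
        nlinarith
      rw [this, one_mul]
  have hlim2 : Tendsto (fun k : ℕ => ∫ x, chi ((k:ℝ) ^ 2) (W x) * (L x / P x) ∂μ) atTop
      (𝓝 0) := by
    have h0 : Tendsto (fun k : ℕ => K / (k:ℝ)) atTop (𝓝 0) :=
      tendsto_const_div_atTop_nhds_zero_nat K
    rw [tendsto_zero_iff_abs_tendsto_zero]
    apply squeeze_zero' (Filter.Eventually.of_forall fun k => abs_nonneg _) _ h0
    filter_upwards [Filter.eventually_ge_atTop 1] with k hk
    exact key k hk
  exact tendsto_nhds_unique hlim1 hlim2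


end Pool.Agent.Helper684.GX.Har
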