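import Pool.Agent.Helper684.GX.Har.H6

attribute [local instance] Pool.Agent.Helper684.GX.Nev.leafInst

set_option autoImplicit false

open Set Metric Filter Topology MeasureTheory
open scoped Manifold ComplexConjugate
open Pool.Agent.Helper684.GX.Nev Pool.Agent.Helper684.GX.Ergo

namespace Pool.Agent.Helper684.GX.Har


variable {E M : Type*} [NormedAddCommGroup E] [NormedSpace ℂ E] [TopologicalSpace M]
  [ChartedSpace E M] [IsManifold 𝓘(ℂ, E) 1 M] [MeasurableSpace M]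

variable {F : Foliation E M} {ω : PosForm E M} {μ : Measure M} {Φ : M → ℂ → M} {W : M → ℝ}


omit [MeasurableSpace M] in
theorem leafBound_local [FiniteDimensional ℂ E] (F : Foliation E M)
    (ω : PosForm E M) {f : M → ℝ}
    (hf : ContMDiff 𝓘(ℝ, E) 𝓘(ℝ, ℝ) ((⊤ : ℕ∞) : WithTop ℕ∞) f) (p : M) :
    ∃ U ∈ 𝓝 p, ∃ C : ℝ, ∀ φ : ℂ → M, F.IsTangentDisc φ → φ 0 ∈ U →
        |lap (fun z => f (φ z)) 0| ≤ C * pullback ω φ 0 ∧
          ‖fderiv ℝ (fun z => f (φ z)) 0‖ ^ 2 ≤ C * pullback ω φ 0 := by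
  classical
  set e := chartAt E p with he_def
  have he : e ∈ IsManifold.maximalAtlas 𝓘(ℂ, E) 1 M := IsManifold.chart_mem_maximalAtlas p
  have hpe : p ∈ e.source := mem_chart_source E p
  have hpt : e p ∈ e.target := e.map_source hpe
  obtain ⟨r, hr, hball⟩ := Metric.nhds_basis_closedBall.mem_iff.1 (e.open_target.mem_nhds hpt)
  set S := closedBall (e p) r with hS
  haveI : ProperSpace E := FiniteDimensional.proper ℂ E
  have hSc : IsCompact S := isCompact_closedBall _ _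
  obtain ⟨c, hc, hQ⟩ := exists_Qe_ge ω he hSc hball
  set g : E → ℝ := fun y => f (e.symm y) with hg
  have hgd : ∀ y ∈ e.target, ContDiffAt ℝ ((⊤ : ℕ∞) : WithTop ℕ∞) g y := fun y hy =>
    contDiffAt_comp_symm he hf hy
  have hgd2 : ∀ y ∈ e.target, ContDiffAt ℝ 2 g y := fun y hy =>
    (hgd y hy).of_le (by
      have h : ((2 : ℕ∞) : WithTop ℕ∞) ≤ ((⊤ : ℕ∞) : WithTop ℕ∞) := WithTop.coe_le_coe.2 le_top
      exact h)
  have h1c : ContinuousOn (fun y => ‖fderiv ℝ g y‖) S := by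
    intro y hy
    have := ((hgd2 y (hball hy)).fderiv_right (m := 1) (by norm_num)).continuousAt
    exact this.norm.continuousWithinAt
  have h2c : ContinuousOn (fun y => ‖fderiv ℝ (fderiv ℝ g) y‖) S := by
    intro y hy
    have h1 := ((hgd2 y (hball hy)).fderiv_right (m := 1) (by norm_num))
    have := (h1.fderiv_right (m := 0) (by norm_num)).continuousAt
    exact this.norm.continuousWithinAt
  obtain ⟨D1, hD1⟩ := hSc.bddAbove_image h1c
  obtain ⟨D2, hD2⟩ := hSc.bddAbove_image h2c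
  have hD1' : ∀ y ∈ S, ‖fderiv ℝ g y‖ ≤ D1 := fun y hy => hD1 (Set.mem_image_of_mem _ hy)
  have hD2' : ∀ y ∈ S, ‖fderiv ℝ (fderiv ℝ g) y‖ ≤ D2 := fun y hy =>
    hD2 (Set.mem_image_of_mem _ hy)
  have hD1n : 0 ≤ D1 := (norm_nonneg _).trans (hD1' (e p) (mem_closedBall_self hr.le))
  have hD2n : 0 ≤ D2 := (norm_nonneg (fderiv ℝ (fderiv ℝ g) (e p))).trans
    (hD2' (e p) (mem_closedBall_self hr.le))
  refine ⟨e.source ∩ e ⁻¹' (ball (e p) r), ?_, (2 * D2 + D1 ^ 2) / c, ?_⟩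
  · exact (e.isOpen_inter_preimage isOpen_ball).mem_nhds ⟨hpe, mem_ball_self hr⟩
  intro φ hφ hφ0
  have h0 : (0 : ℂ) ∈ ball (0 : ℂ) 1 := mem_ball_self one_pos
  have hchart : IsHolChartAt e (φ 0) := ⟨he, hφ0.1⟩
  set h : ℂ → E := fun z => e (φ z) with hh
  haveI : CompleteSpace E := FiniteDimensional.complete ℂ E
  have han : AnalyticAt ℂ h 0 := analyticAt_chart (fun z hz => hφ.mdiffAt hz) h0 hchart
  have hev : (fun z => f (φ z)) =ᶠ[𝓝 0] fun z => g (h z) := by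
    have hc0 := hφ.contAt h0
    filter_upwards [hc0.preimage_mem_nhds (e.open_source.mem_nhds hφ0.1)] with z hz
    simp only [hg, hh]
    rw [e.left_inv hz]
  have hy : h 0 ∈ S := ball_subset_closedBall hφ0.2
  have hyt : h 0 ∈ e.target := hball hy
  have hpb : pullback ω φ 0 = Qe ω e (h 0) (deriv h 0) := pullback_chart ω (hφ.mdiffAt h0) hchart
  have hlow : c * ‖deriv h 0‖ ^ 2 ≤ pullback ω φ 0 := by rw [hpb]; exact hQ _ hy _
  have hlow' : ‖deriv h 0‖ ^ 2 ≤ pullback ω φ 0 / c := by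
    rw [le_div_iff₀ hc]; linarith
  have hpn : 0 ≤ pullback ω φ 0 / c := (sq_nonneg _).trans hlow'
  constructor
  · rw [lap_congr hev, lap_comp_curve (hgd2 _ hyt) han]
    refine (abs_lap_line_le (hgd2 _ hyt)).trans ?_
    calc 2 * ‖fderiv ℝ (fderiv ℝ g) (h 0)‖ * ‖deriv h 0‖ ^ 2
        ≤ 2 * D2 * (pullback ω φ 0 / c) := by
          gcongr
          exact hD2' _ hy
      _ ≤ (2 * D2 + D1 ^ 2) * (pullback ω φ 0 / c) := by
          gcongr
          nlinarith [sq_nonneg D1]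
      _ = (2 * D2 + D1 ^ 2) / c * pullback ω φ 0 := by ring
  · rw [hev.fderiv_eq]
    have hh' : HasFDerivAt h (fderiv ℂ h 0) 0 := han.differentiableAt.hasFDerivAt
    have hhR : HasFDerivAt h ((fderiv ℂ h 0).restrictScalars ℝ) 0 := hh'.restrictScalars ℝ
    have hgR : HasFDerivAt g (fderiv ℝ g (h 0)) (h 0) :=
      ((hgd2 _ hyt).differentiableAt (by norm_num)).hasFDerivAt
    have hcomp := (hgR.comp 0 hhR).fderiv
    have hcomp' : fderiv ℝ (fun z => g (h z)) 0 =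
      (fderiv ℝ g (h 0)).comp ((fderiv ℂ h 0).restrictScalars ℝ) := hcomp
    rw [hcomp']
    have hn : ‖(fderiv ℂ h 0).restrictScalars ℝ‖ = ‖deriv h 0‖ := by
      rw [ContinuousLinearMap.norm_restrictScalars, norm_deriv_eq_norm_fderiv]
    have hle : ‖(fderiv ℝ g (h 0)).comp ((fderiv ℂ h 0).restrictScalars ℝ)‖ ≤
        D1 * ‖deriv h 0‖ := by
      refine (ContinuousLinearMap.opNorm_comp_le _ _).trans ?_
      rw [hn]
      gcongr
      exact hD1' _ hy
    calc ‖(fderiv ℝ g (h 0)).comp ((fderiv ℂ h 0).restrictScalars ℝ)‖ ^ 2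
        ≤ (D1 * ‖deriv h 0‖) ^ 2 := by gcongr
      _ = D1 ^ 2 * ‖deriv h 0‖ ^ 2 := by ring
      _ ≤ D1 ^ 2 * (pullback ω φ 0 / c) := by gcongr
      _ ≤ (2 * D2 + D1 ^ 2) * (pullback ω φ 0 / c) := by
          gcongr
          linarith
      _ = (2 * D2 + D1 ^ 2) / c * pullback ω φ 0 := by ring

/-- a smooth function on `M` has bounded derivatives along tangent discs -/
theorem leafBound_smooth [FiniteDimensional ℂ E] [T2Space M] [CompactSpace M] (F : Foliation E M)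
    (ω : PosForm E M) {f : M → ℝ}
    (hf : ContMDiff 𝓘(ℝ, E) 𝓘(ℝ, ℝ) ((⊤ : ℕ∞) : WithTop ℕ∞) f) : ∃ C : ℝ, ∀ φ : ℂ → M,
      F.IsTangentDisc φ → ContDiffOn ℝ 2 (fun z => f (φ z)) (ball 0 1) ∧
        |lap (fun z => f (φ z)) 0| ≤ C * pullback ω φ 0 ∧
          ‖fderiv ℝ (fun z => f (φ z)) 0‖ ^ 2 ≤ C * pullback ω φ 0 := by
  have hmain : ∃ C : ℝ, ∀ φ : ℂ → M, F.IsTangentDisc φ → φ 0 ∈ (univ : Set M) →
        |lap (fun z => f (φ z)) 0| ≤ C * pullback ω φ 0 ∧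
          ‖fderiv ℝ (fun z => f (φ z)) 0‖ ^ 2 ≤ C * pullback ω φ 0 := by
    refine isCompact_univ.induction_on (p := fun s : Set M => ∃ C : ℝ, ∀ φ : ℂ → M,
        F.IsTangentDisc φ → φ 0 ∈ s → |lap (fun z => f (φ z)) 0| ≤ C * pullback ω φ 0 ∧
          ‖fderiv ℝ (fun z => f (φ z)) 0‖ ^ 2 ≤ C * pullback ω φ 0) ?_ ?_ ?_ ?_
    · exact ⟨0, fun φ _ h => absurd h (Set.notMem_empty _)⟩
    · rintro s t hst ⟨C, hC⟩
      exact ⟨C, fun φ hφ h => hC φ hφ (hst h)⟩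
    · rintro s t ⟨C, hC⟩ ⟨C', hC'⟩
      refine ⟨max C C', fun φ hφ h => ?_⟩
      have hp := pullback_nonneg ω φ 0
      rcases h with h | h
      · obtain ⟨h1, h2⟩ := hC φ hφ h
        have : C * pullback ω φ 0 ≤ max C C' * pullback ω φ 0 := by
          gcongr; exact le_max_left _ _
        exact ⟨h1.trans this, h2.trans this⟩
      · obtain ⟨h1, h2⟩ := hC' φ hφ h
        have : C' * pullback ω φ 0 ≤ max C C' * pullback ω φ 0 := by
          gcongr; exact le_max_right _ _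
        exact ⟨h1.trans this, h2.trans this⟩
    · intro p _
      obtain ⟨U, hU, C, hC⟩ := leafBound_local F ω hf p
      exact ⟨U, mem_nhdsWithin_of_mem_nhds hU, C, hC⟩
  obtain ⟨C, hC⟩ := hmain
  refine ⟨C, fun φ hφ => ⟨?_, hC φ hφ (Set.mem_univ _)⟩⟩
  intro z hz
  exact (lap_comp_disc hf hφ.1 hz).1.contDiffWithinAt

/-- the leafwise Laplacian of a smooth function is given by `dd^c f` -/
theorem lap_eq_leafQuot [FiniteDimensional ℂ E] (ω : PosForm E M) {f : M → ℝ}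
    (hf : ContMDiff 𝓘(ℝ, E) 𝓘(ℝ, ℝ) ((⊤ : ℕ∞) : WithTop ℕ∞) f) {φ : ℂ → M}
    (hφ : F.IsUniversalCovering φ) :
    lap (fun z => f (φ z)) 0 / pullback ω φ 0 =
      2 * Real.pi * leafQuot ω F (fun x v => ddcForm f x v) (φ 0) := by
  have h0 : (0 : ℂ) ∈ ball (0 : ℂ) 1 := mem_ball_self one_pos
  have hl := (lap_comp_disc (E := E) hf hφ.tangent.1 h0).2
  have hq := leafQuot_eq (E := E) ω (F := F) (q := fun x v => ddcForm f x v) (x := φ 0)
    (fun c v => ddcForm_smul hf (φ 0) c v) (hφ.tangent.2 0 h0).1 (hφ.tangent.2 0 h0).2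
    (hφ.immersion 0 h0)
  rw [hl, hq, pullback_eq, qf]
  ring


end Pool.Agent.Helper684.GX.Har
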