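import Pool.Agent.Helper684.GX.Har.H7

attribute [local instance] Pool.Agent.Helper684.GX.Nev.leafInst

set_option autoImplicit false

open Set Metric Filter Topology MeasureTheory
open scoped Manifold ComplexConjugate
open Pool.Agent.Helper684.GX.Nev Pool.Agent.Helper684.GX.Ergo

namespace Pool.Agent.Helper684.GX.Har


variable {E M : Type*} [NormedAddCommGroup E] [NormedSpace ℂ E] [TopologicalSpace M]
  [ChartedSpace E M] [IsManifold 𝓘(ℂ, E) 1 M] [MeasurableSpace M]

variable {F : Foliation E M} {ω : PosForm E M} {μ : Measure M} {Φ : M → ℂ → M} {W : M → ℝ}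


theorem restrict_harmonic_aux [BorelSpace M] [FiniteDimensional ℂ E] [T2Space M] [CompactSpace M]
    [IsFiniteMeasure μ] (hΦ : Fam F Φ) (hH : ∀ᵐ x ∂μ, IsHyperbolic F x)
    (hT : Test F ω μ Φ) (hW : Barrier F ω W) (hμ : IsDirectedHarmonic ω F μ)
    {A : Set M} (hA : MeasurableSet A)
    (hsat : ∀ φ : ℂ → M, F.IsUniversalCovering φ → ∀ z ∈ ball (0 : ℂ) 1, (φ z ∈ A ↔ φ 0 ∈ A)) :
    IsDirectedHarmonic ω F (μ.restrict A) := by
  refine ⟨measure_lt_top _ _, ?_, ?_⟩
  · exact le_antisymm ((Measure.restrict_apply_le A F.sing).trans hμ.sing.le) (zero_le)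
  intro f hf
  have hfc : Continuous f := hf.continuous
  have hball : ball (0 : ℂ) 1 ∈ 𝓝 (0 : ℂ) := ball_mem_nhds 0 one_pos
  -- the values of the indicator along a covering
  have hin : ∀ φ : ℂ → M, F.IsUniversalCovering φ → φ 0 ∈ A → ∀ z ∈ ball (0 : ℂ) 1,
      A.indicator f (φ z) = f (φ z) := by
    intro φ hφ h0 z hz
    exact indicator_of_mem ((hsat φ hφ z hz).2 h0) f
  have hout : ∀ φ : ℂ → M, F.IsUniversalCovering φ → φ 0 ∉ A → ∀ z ∈ ball (0 : ℂ) 1,
      A.indicator f (φ z) = 0 := by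
    intro φ hφ h0 z hz
    exact indicator_of_notMem (fun h => h0 ((hsat φ hφ z hz).1 h)) f
  have hlin : ∀ φ : ℂ → M, F.IsUniversalCovering φ → φ 0 ∈ A →
      lap (fun z => A.indicator f (φ z)) 0 = lap (fun z => f (φ z)) 0 := by
    intro φ hφ h0
    apply lap_congr
    filter_upwards [hball] with z hz
    exact hin φ hφ h0 z hz
  have hlap0 : lap (fun _ : ℂ => (0:ℝ)) 0 = 0 := by
    simp [lap]
  have hlout : ∀ φ : ℂ → M, F.IsUniversalCovering φ → φ 0 ∉ A →
      lap (fun z => A.indicator f (φ z)) 0 = 0 := by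
    intro φ hφ h0
    rw [← hlap0]
    apply lap_congr
    filter_upwards [hball] with z hz
    exact hout φ hφ h0 z hz
  obtain ⟨C, hC⟩ := leafBound_smooth F ω hf
  have hRb : ∃ C, LeafBound F (A.indicator f) (fun φ => C * (1 + pullback ω φ 0)) := by
    refine ⟨|C|, fun φ hφ => ?_⟩
    have hp : 0 ≤ pullback ω φ 0 := pullback_nonneg ω φ 0
    obtain ⟨c1, c2, c3⟩ := hC φ hφ.tangent
    have hle : C * pullback ω φ 0 ≤ |C| * (1 + pullback ω φ 0) := by
      have h1 : C * pullback ω φ 0 ≤ |C| * pullback ω φ 0 :=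
        mul_le_mul_of_nonneg_right (le_abs_self C) hp
      have h2 := abs_nonneg C
      linarith
    by_cases h0 : φ 0 ∈ A
    · refine ⟨c1.congr (hin φ hφ h0), ?_, ?_⟩
      · rw [hlin φ hφ h0]
        exact c2.trans hle
      · have : fderiv ℝ (fun z => A.indicator f (φ z)) 0 = fderiv ℝ (fun z => f (φ z)) 0 := by
          apply Filter.EventuallyEq.fderiv_eq
          filter_upwards [hball] with z hz
          exact hin φ hφ h0 z hz
        rw [this]
        exact c3.trans hle
    · have hnn : 0 ≤ |C| * (1 + pullback ω φ 0) := by positivity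
      refine ⟨(contDiffOn_const (c := (0:ℝ))).congr (hout φ hφ h0), ?_, ?_⟩
      · rw [hlout φ hφ h0, abs_zero]
        exact hnn
      · have : fderiv ℝ (fun z => A.indicator f (φ z)) 0 = fderiv ℝ (fun _ : ℂ => (0:ℝ)) 0 := by
          apply Filter.EventuallyEq.fderiv_eq
          filter_upwards [hball] with z hz
          exact hout φ hφ h0 z hz
        rw [this]
        simp only [fderiv_fun_const, Pi.zero_apply, norm_zero]
        rw [zero_pow two_ne_zero]
        exact hnn
  have hBb : ∃ B, ∀ x, |A.indicator f x| ≤ B := by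
    obtain ⟨B, hB⟩ := (isCompact_range (hfc.abs)).bddAbove
    refine ⟨|B|, fun x => ?_⟩
    by_cases hx : x ∈ A
    · rw [indicator_of_mem hx]
      exact (hB ⟨x, rfl⟩).trans (le_abs_self B)
    · rw [indicator_of_notMem hx, abs_zero]
      exact abs_nonneg B
  have hh := (harmonic hΦ hH hT hW (hfc.measurable.indicator hA) hBb hRb).2
  have hae : (fun x => lap (fun z => A.indicator f (Φ x z)) 0 / pullback ω (Φ x) 0) =ᵐ[μ]
      A.indicator (fun x => 2 * Real.pi * leafQuot ω F (fun x v => ddcForm f x v) x) := by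
    filter_upwards [hH] with x hx
    obtain ⟨hcov, hx0⟩ := hΦ.cov x hx
    by_cases hxA : x ∈ A
    · rw [indicator_of_mem hxA, hlin (Φ x) hcov (by rw [hx0]; exact hxA), lap_eq_leafQuot ω hf hcov,
        hx0]
    · rw [indicator_of_notMem hxA, hlout (Φ x) hcov (by rw [hx0]; exact hxA), zero_div]
  rw [integral_congr_ae hae, integral_indicator hA, integral_const_mul] at hh
  rcases mul_eq_zero.1 hh with h | h
  · exact absurd h (by positivity)
  · exact h

/-- **Ergodicity**: saturated Borel sets are null or conull for an extremal current. -/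
theorem ergodic_of_extremal [BorelSpace M] [FiniteDimensional ℂ E] [T2Space M] [CompactSpace M]
    [IsFiniteMeasure μ] (hΦ : Fam F Φ) (hH : ∀ᵐ x ∂μ, IsHyperbolic F x)
    (hT : Test F ω μ Φ) (hW : Barrier F ω W) (hμ : IsDirectedHarmonic ω F μ)
    (hext : IsExtremal ω F μ) {A : Set M} (hA : MeasurableSet A)
    (hsat : ∀ φ : ℂ → M, F.IsUniversalCovering φ → ∀ z ∈ ball (0 : ℂ) 1, (φ z ∈ A ↔ φ 0 ∈ A)) :
    μ A = 0 ∨ μ Aᶜ = 0 := by
  have h1 := restrict_harmonic_aux hΦ hH hT hW hμ hA hsat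
  have h2 := restrict_harmonic_aux hΦ hH hT hW hμ hA.compl
    (fun φ hφ z hz => not_congr (hsat φ hφ z hz))
  obtain ⟨c, hc⟩ := hext (μ.restrict A) (μ.restrict Aᶜ) h1 h2
    (Measure.restrict_add_restrict_compl hA).symm
  have h3 : (μ.restrict A) Aᶜ = 0 := by
    rw [Measure.restrict_apply hA.compl, compl_inter_self, measure_empty]
  rw [hc, Measure.smul_apply, smul_eq_mul] at h3
  rcases mul_eq_zero.1 h3 with h | h
  · left
    have h4 : (μ.restrict A) A = μ A := Measure.restrict_apply_self μ A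
    rw [← h4, hc, h, zero_smul]
    rfl
  · exact Or.inr h


end Pool.Agent.Helper684.GX.Har
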