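import Pool.Agent.Helper684.GX.Har.Bb

attribute [local instance] Pool.Agent.Helper684.GX.Nev.leafInst

set_option autoImplicit false

open Set Metric Filter Topology MeasureTheory
open scoped Manifold ComplexConjugate ENNReal
open ProbabilityTheory
open Pool.Agent.Helper684.GX.Nev Pool.Agent.Helper684.GX.Ergo

namespace Pool.Agent.Helper684.GX.Har


variable {E M : Type*} [NormedAddCommGroup E] [NormedSpace ℂ E] [TopologicalSpace M]
  [ChartedSpace E M] [IsManifold 𝓘(ℂ, E) 1 M] [MeasurableSpace M]

variable {F : Foliation E M} {ω : PosForm E M} {μ : Measure M} {Φ : M → ℂ → M} {W : M → ℝ}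


theorem den_indicator_of_continuousOn {X Y : Type*} [TopologicalSpace X]
    [MeasurableSpace X] [OpensMeasurableSpace X] [TopologicalSpace Y] [MeasurableSpace Y]
    [BorelSpace Y] [Zero Y] {s : Set X} (hs : MeasurableSet s) {f : X → Y}
    (hf : ContinuousOn f s) : Measurable (s.indicator f) := by
  apply measurable_of_restrict_of_restrict_compl hs
  · have : s.domRestrict (s.indicator f) = s.domRestrict f := by
      ext z
      simp only [Set.domRestrict_apply]
      rw [Set.indicator_of_mem z.2]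
    rw [this]
    exact (continuousOn_iff_continuous_domRestrict.1 hf).measurable
  · have : sᶜ.domRestrict (s.indicator f) = fun _ => 0 := by
      ext z
      simp only [Set.domRestrict_apply]
      rw [Set.indicator_of_notMem z.2]
    rw [this]
    exact measurable_const

section
variable [BorelSpace M]

theorem exists_den_chart [FiniteDimensional ℂ E] (ω : PosForm E M)
    (hΦ : Fam F Φ) {e : OpenPartialHomeomorph M E}
    (he : e ∈ IsManifold.maximalAtlas 𝓘(ℂ, E) 1 M) :
    ∃ den : M → ℝ, Measurable den ∧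
      ∀ x ∈ e.source, IsHyperbolic F x → den x = pullback ω (Φ x) 0 := by
  have : ProperSpace E := FiniteDimensional.proper ℂ E
  borelize E
  have hsm : MeasurableSet e.source := e.open_source.measurableSet
  set et : M → E := e.source.indicator e with hetd
  have het : Measurable et := den_indicator_of_continuousOn hsm e.continuousOn
  let g : ℕ → M → E := fun k x => ((k : ℂ) + 2) • (et (Φ x (1 / ((k : ℂ) + 2))) - et x)
  have hg : ∀ k, Measurable (g k) := fun k =>
    ((het.comp (hΦ.meas.comp (measurable_id.prodMk measurable_const))).sub het).const_smul _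
  let D : M → E := fun x => deriv (fun z => e (Φ x z)) 0
  have hlim : ∀ x ∈ e.source, IsHyperbolic F x → Tendsto (fun k => g k x) atTop (𝓝 (D x)) := by
    intro x hxs hx
    obtain ⟨hcov, h0⟩ := hΦ.cov x hx
    have hmd : MDifferentiableAt 𝓘(ℂ, ℂ) 𝓘(ℂ, E) (Φ x) 0 :=
      hcov.tangent.mdiffAt (mem_ball_self one_pos)
    have hd := hasDerivAt_chart hmd (e := e) ⟨he, by rw [h0]; exact hxs⟩
    have hd2 : HasDerivAt (fun z => e (Φ x z)) (D x) 0 := by
      have : D x = _ := hd.deriv
      rw [this]; exact hd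
    have ht : Tendsto (fun k : ℕ => 1 / ((k : ℂ) + 2)) atTop (𝓝[≠] 0) := by
      rw [tendsto_nhdsWithin_iff]
      constructor
      · rw [tendsto_zero_iff_norm_tendsto_zero]
        have e1 : (fun k : ℕ => ‖1 / ((k : ℂ) + 2)‖) = fun k : ℕ => 1 / (((k + 1 : ℕ) : ℝ) + 1) := by
          funext k
          rw [norm_div, norm_one]
          congr 1
          have : (k : ℂ) + 2 = ((k + 2 : ℕ) : ℂ) := by push_cast; ring
          rw [this, Complex.norm_natCast]
          push_cast; ring
        rw [e1]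
        exact (tendsto_one_div_add_atTop_nhds_zero_nat (𝕜 := ℝ)).comp (tendsto_add_atTop_nat 1)
      · refine Eventually.of_forall fun k => ?_
        have : (k : ℂ) + 2 ≠ 0 := by
          have : (k : ℂ) + 2 = ((k + 2 : ℕ) : ℂ) := by push_cast; ring
          rw [this]; exact Nat.cast_ne_zero.2 (by omega)
        simp [this]
    have hsl := hd2.tendsto_slope_zero.comp ht
    refine hsl.congr' ?_
    have hev : ∀ᶠ z in 𝓝 (0 : ℂ), Φ x z ∈ e.source := by
      have hc : ContinuousAt (Φ x) 0 := hcov.tangent.contAt (mem_ball_self one_pos)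
      apply hc.eventually_mem
      rw [h0]
      exact e.open_source.mem_nhds hxs
    have hev2 := (ht.mono_right nhdsWithin_le_nhds).eventually hev
    filter_upwards [hev2] with k hk
    simp only [Function.comp_apply, g, hetd]
    rw [Set.indicator_of_mem hk, Set.indicator_of_mem hxs, zero_add, h0, one_div, inv_inv]
  set QI : E × E → ℝ := (e.target ×ˢ (univ : Set E)).indicator (fun p : E × E => Qe ω e p.1 p.2)
    with hQI
  have hQ : Measurable QI :=
    den_indicator_of_continuousOn (e.open_target.prod isOpen_univ).measurableSet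
      (continuousOn_Qe ω he)
  have hPm : ∀ k : ℕ, Measurable (fun x => QI (et x, g k x)) := fun k =>
    hQ.comp (het.prodMk (hg k))
  refine ⟨fun x => limsup (fun k : ℕ => QI (et x, g k x)) atTop, Measurable.limsup hPm, ?_⟩
  intro x hxs hx
  obtain ⟨hcov, h0⟩ := hΦ.cov x hx
  have hmd : MDifferentiableAt 𝓘(ℂ, ℂ) 𝓘(ℂ, E) (Φ x) 0 :=
    hcov.tangent.mdiffAt (mem_ball_self one_pos)
  have hex : et x = e x := Set.indicator_of_mem hxs (fun y : M => e y)
  have hmem : (e x, D x) ∈ e.target ×ˢ (univ : Set E) := ⟨e.map_source hxs, mem_univ _⟩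
  have hnhds : e.target ×ˢ (univ : Set E) ∈ 𝓝 (e x, D x) :=
    (e.open_target.prod isOpen_univ).mem_nhds hmem
  have hcQ : ContinuousAt QI (e x, D x) := by
    have h1 : ContinuousAt (fun p : E × E => Qe ω e p.1 p.2) (e x, D x) :=
      (continuousOn_Qe ω he).continuousAt hnhds
    refine h1.congr ?_
    filter_upwards [hnhds] with p hp
    exact (Set.indicator_of_mem hp (fun p : E × E => Qe ω e p.1 p.2)).symm
  have hlim2 : Tendsto (fun k : ℕ => QI (et x, g k x)) atTop (𝓝 (QI (e x, D x))) := by
    apply hcQ.tendsto.comp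
    rw [hex]
    exact tendsto_const_nhds.prodMk_nhds (hlim x hxs hx)
  simp only
  rw [hlim2.limsup_eq, pullback_chart ω hmd (e := e) ⟨he, by rw [h0]; exact hxs⟩, hQI,
    Set.indicator_of_mem hmem, h0]

theorem exists_den_finset [FiniteDimensional ℂ E] (ω : PosForm E M)
    (hΦ : Fam F Φ) (t : Finset M) : ∃ den : M → ℝ, Measurable den ∧
      ∀ x, (∃ i ∈ t, x ∈ (chartAt E i).source) → IsHyperbolic F x →
        den x = pullback ω (Φ x) 0 := by
  classical
  induction t using Finset.induction_on with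
  | empty =>
    refine ⟨fun _ => 0, measurable_const, ?_⟩
    rintro x ⟨i, hi, -⟩
    exact absurd hi (Finset.notMem_empty _)
  | insert i t _ ih =>
    obtain ⟨d1, hd1, hd2⟩ := ih
    obtain ⟨d3, hd3, hd4⟩ := exists_den_chart ω hΦ (e := chartAt E i)
      (IsManifold.chart_mem_maximalAtlas i)
    refine ⟨fun x => if x ∈ (chartAt E i).source then d3 x else d1 x,
      Measurable.ite (chartAt E i).open_source.measurableSet hd3 hd1, ?_⟩
    rintro x ⟨j, hj, hxj⟩ hx
    beta_reduce
    split_ifs with h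
    · exact hd4 x h hx
    · rcases Finset.mem_insert.1 hj with rfl | hj
      · exact absurd hxj h
      · exact hd2 x ⟨j, hj, hxj⟩ hx

end

/-- a measurable function which gives the density of `ω` along the hyperbolic leaves -/
theorem exists_den [BorelSpace M] [FiniteDimensional ℂ E] [T2Space M] [CompactSpace M]
    (ω : PosForm E M) (hΦ : Fam F Φ) : ∃ den : M → ℝ, Measurable den ∧
      ∀ φ : ℂ → M, F.IsUniversalCovering φ → den (φ 0) = pullback ω φ 0 := by
  obtain ⟨t, ht⟩ := isCompact_univ.elim_finite_subcover (fun x : M => (chartAt E x).source)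
    (fun x => (chartAt E x).open_source) (fun x _ => mem_iUnion.2 ⟨x, mem_chart_source E x⟩)
  obtain ⟨den, hden, hd⟩ := exists_den_finset ω hΦ t
  refine ⟨den, hden, ?_⟩
  intro φ hφ
  have hx : IsHyperbolic F (φ 0) := ⟨φ, hφ, rfl⟩
  obtain ⟨i, hi, hxi⟩ := mem_iUnion₂.1 (ht (mem_univ (φ 0)))
  rw [hd (φ 0) ⟨i, hi, hxi⟩ hx]
  obtain ⟨hcov, h0⟩ := hΦ.cov (φ 0) hx
  obtain ⟨c, hc, hcz⟩ := universalCovering_unique hcov hφ h0
  set e := chartAt E i with hedef
  have he : e ∈ IsManifold.maximalAtlas 𝓘(ℂ, E) 1 M := IsManifold.chart_mem_maximalAtlas i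
  have hmd : MDifferentiableAt 𝓘(ℂ, ℂ) 𝓘(ℂ, E) (Φ (φ 0)) 0 :=
    hcov.tangent.mdiffAt (mem_ball_self one_pos)
  have hmd2 : MDifferentiableAt 𝓘(ℂ, ℂ) 𝓘(ℂ, E) φ 0 :=
    hφ.tangent.mdiffAt (mem_ball_self one_pos)
  rw [pullback_chart ω hmd (e := e) ⟨he, by rw [h0]; exact hxi⟩,
    pullback_chart ω hmd2 (e := e) ⟨he, hxi⟩, h0]
  have hder : deriv (fun z => e (φ z)) 0 = c • deriv (fun z => e (Φ (φ 0) z)) 0 := by
    have h1 : (fun z => e (φ z)) =ᶠ[𝓝 0] fun z => (fun w => e (Φ (φ 0) w)) (c * z) := by
      filter_upwards [ball_mem_nhds (0 : ℂ) one_pos] with z hz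
      rw [hcz z hz]
    rw [h1.deriv_eq]
    have h2 := deriv_comp_mul_left c (fun w => e (Φ (φ 0) w)) 0
    rw [mul_zero] at h2
    exact h2
  rw [hder, Qe_smul, hc]
  norm_num


end Pool.Agent.Helper684.GX.Har
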