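import Pool.Agent.Helper684.GX.Har.I1

attribute [local instance] Pool.Agent.Helper684.GX.Nev.leafInst

set_option autoImplicit false

open Set Metric Filter Topology MeasureTheory
open scoped Manifold ComplexConjugate ENNReal
open ProbabilityTheory
open Pool.Agent.Helper684.GX.Nev Pool.Agent.Helper684.GX.Ergo

namespace Pool.Agent.Helper684.GX.Har


variable {E M : Type*} [NormedAddCommGroup E] [NormedSpace ℂ E] [TopologicalSpace M]
  [ChartedSpace E M] [IsManifold 𝓘(ℂ, E) 1 M] [MeasurableSpace M]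

variable {F : Foliation E M} {ω : PosForm E M} {μ : Measure M} {Φ : M → ℂ → M} {W : M → ℝ}


/-- the pullback of the metric does not depend on the covering -/
theorem pullback_indep (ω : PosForm E M) {φ ψ : ℂ → M} (hφ : F.IsUniversalCovering φ)
    (hψ : F.IsUniversalCovering ψ) (h : φ 0 = ψ 0) : pullback ω φ 0 = pullback ω ψ 0 := by
  have key : ∀ {φ ψ : ℂ → M}, F.IsUniversalCovering φ → F.IsUniversalCovering ψ → φ 0 = ψ 0 →
      pullback ω ψ 0 ≤ pullback ω φ 0 := by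
    intro φ ψ hφ hψ h
    obtain ⟨κ, hκ, hκ2, -⟩ := schwarz_lift ω hφ hψ.tangent (ξ₀ := 0) (mem_ball_self one_pos) h.symm
    rw [hκ2]
    have h1 : ‖κ‖ ≤ 1 := by simpa using hκ
    have h2 : ‖κ‖ ^ 2 ≤ 1 := pow_le_one₀ (norm_nonneg _) h1
    have h3 := pullback_nonneg ω φ 0
    nlinarith
  exact le_antisymm (key hψ hφ h.symm) (key hφ hψ h)

/-- the leafwise Laplacian does not depend on the covering -/
theorem lap_indep {φ ψ : ℂ → M} (hφ : F.IsUniversalCovering φ)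
    (hψ : F.IsUniversalCovering ψ) (h : φ 0 = ψ 0) {w : M → ℝ}
    (hw : ContDiffOn ℝ 2 (fun z => w (φ z)) (ball 0 1)) :
    lap (fun z => w (φ z)) 0 = lap (fun z => w (ψ z)) 0 := by
  obtain ⟨c, hc, hcz⟩ := universalCovering_unique hφ hψ h
  have h1 : (fun z => w (ψ z)) =ᶠ[𝓝 (0 : ℂ)] (fun z => w (φ (c * z))) := by
    filter_upwards [ball_mem_nhds (0 : ℂ) one_pos] with z hz
    rw [hcz z hz]
  rw [lap_congr h1]
  have h2 := lap_comp_holo (U := fun z => w (φ z)) (j := fun z => c * z) (w := 0) (by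
    simp only [mul_zero]
    exact hw.contDiffAt (ball_mem_nhds (0 : ℂ) one_pos)) (by fun_prop)
  rw [h2]
  simp [deriv_const_mul_field, hc]

theorem leafLap_eq (ω : PosForm E M) {φ : ℂ → M} (hφ : F.IsUniversalCovering φ) {w : M → ℝ}
    (hw : ContDiffOn ℝ 2 (fun z => w (φ z)) (ball 0 1)) :
    leafLap ω F w (φ 0) = lap (fun z => w (φ z)) 0 / pullback ω φ 0 := by
  classical
  have h : ∃ φ' : ℂ → M, F.IsUniversalCovering φ' ∧ φ' 0 = φ 0 := ⟨φ, hφ, rfl⟩
  unfold leafLap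
  rw [dif_pos h]
  have hs := h.choose_spec
  rw [lap_indep hφ hs.1 hs.2.symm hw, pullback_indep ω hφ hs.1 hs.2.symm]

/-- the test property for `leafLap` implies `Test` -/
theorem test_of_leafLap (hΦ : Fam F Φ) (hH : ∀ᵐ x ∂μ, IsHyperbolic F x)
    (htest : ∀ (w : M → ℝ) (K : Set M) (B : ℝ), Measurable w → IsCompact K → Disjoint K F.sing →
      (∀ x ∉ K, w x = 0) → (∀ x, |w x| ≤ B) →
      (∀ φ, F.IsUniversalCovering φ → ContDiffOn ℝ 2 (fun z => w (φ z)) (ball 0 1) ∧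
        |lap (fun z => w (φ z)) 0| ≤ B * pullback ω φ 0 ∧
          ‖fderiv ℝ (fun z => w (φ z)) 0‖ ^ 2 ≤ B * pullback ω φ 0) →
      Integrable (leafLap ω F w) μ ∧ ∫ x, leafLap ω F w x ∂μ = 0) :
    Test F ω μ Φ := by
  intro u hu hB hK hC
  obtain ⟨B, hB⟩ := hB
  obtain ⟨K, hK, hKd, hK0⟩ := hK
  obtain ⟨C, hC⟩ := hC
  have h1 := htest u K (max B C) hu hK hKd hK0 (fun x => (hB x).trans (le_max_left _ _))
    (fun φ hφ => by
      obtain ⟨ha, hb, hc⟩ := hC φ hφ
      have hle : C * pullback ω φ 0 ≤ max B C * pullback ω φ 0 :=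
        mul_le_mul_of_nonneg_right (le_max_right _ _) (pullback_nonneg ω φ 0)
      exact ⟨ha, hb.trans hle, hc.trans hle⟩)
  rw [← h1.2]
  apply integral_congr_ae
  filter_upwards [hH] with x hx
  obtain ⟨hx1, hx2⟩ := hΦ.cov x hx
  have h2 := leafLap_eq ω hx1 (hC (Φ x) hx1).1
  rw [hx2] at h2
  exact h2.symm


end Pool.Agent.Helper684.GX.Har
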