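import Pool.Agent.Helper684.GX.Har.I2

attribute [local instance] Pool.Agent.Helper684.GX.Nev.leafInst

set_option autoImplicit false

open Set Metric Filter Topology MeasureTheory
open scoped Manifold ComplexConjugate ENNReal
open ProbabilityTheory
open Pool.Agent.Helper684.GX.Nev Pool.Agent.Helper684.GX.Ergo

namespace Pool.Agent.Helper684.GX.Har


variable {E M : Type*} [NormedAddCommGroup E] [NormedSpace ℂ E] [TopologicalSpace M]
  [ChartedSpace E M] [IsManifold 𝓘(ℂ, E) 1 M] [MeasurableSpace M]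

variable {F : Foliation E M} {ω : PosForm E M} {μ : Measure M} {Φ : M → ℂ → M} {W : M → ℝ}


theorem rebase_meas (z : ℂ) : Measurable fun w : ℂ => hh z w := by
  have h2 : Measurable (fun w : ℂ => (z, w)) := measurable_prodMk_left
  have h3 : Measurable ((fun p : ℂ × ℂ => hh p.1 p.2) ∘ (fun w => (z, w))) :=
    Measurable.comp measurable_hh h2
  exact h3

/-- moving the base point of the family -/
theorem fam_rebase (hΦ : Fam F Φ) {φ : ℂ → M} (hφ : F.IsUniversalCovering φ) {z : ℂ}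
    (hz : z ∈ ball (0 : ℂ) 1) :
    ∃ c : ℂ, ‖c‖ = 1 ∧ ∀ w ∈ ball (0 : ℂ) 1, Φ (φ z) w = φ (mob z (c * w)) := by
  have h0 : mob z 0 = z := by simp [mob]
  have h1 : F.IsUniversalCovering (fun w => φ (mob z w)) := universalCovering_mob hφ hz
  have hyp : IsHyperbolic F (φ z) := ⟨fun w => φ (mob z w), h1, by simp only [h0]⟩
  obtain ⟨h2, h3⟩ := hΦ.cov (φ z) hyp
  obtain ⟨c, hc, h4⟩ := universalCovering_unique h1 h2 (by simp only [h0, h3])
  exact ⟨c, hc, h4⟩

theorem rebase_hh {z : ℂ} (hz : z ∈ ball (0 : ℂ) 1) {c : ℂ} (hc : ‖c‖ = 1) {w : ℂ}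
    (hw : w ∈ ball (0 : ℂ) 1) : hh 0 w = hh z (mob z (c * w)) := by
  have h0 : mob z 0 = z := by simp [mob]
  have hcw : c * w ∈ ball (0 : ℂ) 1 := by
    rw [mem_ball_zero_iff] at hw ⊢
    rw [norm_mul, hc, one_mul]
    exact hw
  have h1 := hh_mob hz (mem_ball_self one_pos) hcw
  rw [h0] at h1
  rw [h1, hh_zero, hh_zero, norm_mul, hc, one_mul]

theorem rebase_aemeas [BorelSpace M] {φ : ℂ → M} (hφ : F.IsUniversalCovering φ) :
    AEMeasurable φ hypVol := by
  have h1 : ContinuousOn φ (ball (0 : ℂ) 1) := fun z hz => (hφ.tangent.contAt hz).continuousWithinAt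
  have h2 : AEMeasurable φ (volume.restrict (ball (0 : ℂ) 1)) := h1.aemeasurable measurableSet_ball
  exact h2.mono_ac (withDensity_absolutelyContinuous _ _)

theorem rebase_mp {z : ℂ} (hz : z ∈ ball (0 : ℂ) 1) {c : ℂ} (hc : ‖c‖ = 1) :
    MeasurePreserving (fun w => mob z (c * w)) hypVol hypVol :=
  (measurePreserving_mob hz).comp (measurePreserving_rot hc)

theorem rebase_lintegral [BorelSpace M] (hΦ : Fam F Φ) {φ : ℂ → M}
    (hφ : F.IsUniversalCovering φ) {z : ℂ}
    (hz : z ∈ ball (0 : ℂ) 1) {k : ℝ → ℝ≥0∞} (hk : Measurable k) {f : M → ℝ≥0∞}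
    (hf : Measurable f) :
    ∫⁻ w, k (hh 0 w) * f (Φ (φ z) w) ∂hypVol = ∫⁻ w, k (hh z w) * f (φ w) ∂hypVol := by
  obtain ⟨c, hc, hcw⟩ := fam_rebase hΦ hφ hz
  have hT := rebase_mp hz hc
  have hG : AEMeasurable (fun w => k (hh z w) * f (φ w)) hypVol := by
    have a1 : Measurable fun w : ℂ => k (hh z w) := hk.comp (rebase_meas z)
    exact a1.aemeasurable.mul (hf.comp_aemeasurable (rebase_aemeas hφ))
  have e1 : ∫⁻ w, k (hh 0 w) * f (Φ (φ z) w) ∂hypVol =
      ∫⁻ w, k (hh z (mob z (c * w))) * f (φ (mob z (c * w))) ∂hypVol := by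
    refine lintegral_congr_ae ?_
    filter_upwards [ae_mem_ball] with w hw
    rw [hcw w hw, rebase_hh hz hc hw]
  have hG' : AEMeasurable (fun w => k (hh z w) * f (φ w)) (hypVol.map (fun w => mob z (c * w))) := by
    rw [hT.map_eq]
    exact hG
  have e2 := lintegral_map' hG' hT.measurable.aemeasurable
  rw [hT.map_eq] at e2
  rw [e1, e2]

theorem rebase_integral [BorelSpace M] (hΦ : Fam F Φ) {φ : ℂ → M}
    (hφ : F.IsUniversalCovering φ) {z : ℂ}
    (hz : z ∈ ball (0 : ℂ) 1) {k : ℝ → ℝ} (hk : Measurable k) {f : M → ℝ}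
    (hf : Measurable f) :
    ∫ w, k (hh 0 w) * f (Φ (φ z) w) ∂hypVol = ∫ w, k (hh z w) * f (φ w) ∂hypVol := by
  obtain ⟨c, hc, hcw⟩ := fam_rebase hΦ hφ hz
  have hT := rebase_mp hz hc
  have hG : AEMeasurable (fun w => k (hh z w) * f (φ w)) hypVol := by
    have a1 : Measurable fun w : ℂ => k (hh z w) := hk.comp (rebase_meas z)
    exact a1.aemeasurable.mul (hf.comp_aemeasurable (rebase_aemeas hφ))
  have e1 : ∫ w, k (hh 0 w) * f (Φ (φ z) w) ∂hypVol =
      ∫ w, k (hh z (mob z (c * w))) * f (φ (mob z (c * w))) ∂hypVol := by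
    refine integral_congr_ae ?_
    filter_upwards [ae_mem_ball] with w hw
    rw [hcw w hw, rebase_hh hz hc hw]
  have hG' : AEStronglyMeasurable (fun w => k (hh z w) * f (φ w))
      (hypVol.map (fun w => mob z (c * w))) := by
    rw [hT.map_eq]
    exact hG.aestronglyMeasurable
  have e2 := integral_map hT.measurable.aemeasurable hG'
  rw [hT.map_eq] at e2
  rw [e1, e2]


end Pool.Agent.Helper684.GX.Har
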