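import Pool.Agent.Helper684.GX.Har.I3

attribute [local instance] Pool.Agent.Helper684.GX.Nev.leafInst

set_option autoImplicit false

open Set Metric Filter Topology MeasureTheory
open scoped Manifold ComplexConjugate ENNReal
open ProbabilityTheory
open Pool.Agent.Helper684.GX.Nev Pool.Agent.Helper684.GX.Ergo

namespace Pool.Agent.Helper684.GX.Har


variable {E M : Type*} [NormedAddCommGroup E] [NormedSpace ℂ E] [TopologicalSpace M]
  [ChartedSpace E M] [IsManifold 𝓘(ℂ, E) 1 M] [MeasurableSpace M]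

variable {F : Foliation E M} {ω : PosForm E M} {μ : Measure M} {Φ : M → ℂ → M} {W : M → ℝ}

/-- smoothing operators along the leaves -/
noncomputable def Qs (Φ : M → ℂ → M) (s : ℕ) (f : M → ℝ) (x : M) : ℝ :=
  ((s : ℝ) - 1) / Real.pi * ∫ w, hh 0 w ^ s * f (Φ x w) ∂hypVol



theorem measurable_Qs (hΦ : Fam F Φ) (s : ℕ) {f : M → ℝ} (hf : Measurable f) :
    Measurable (Qs Φ s f) := by
  have e0 : Measurable fun p : M × ℂ => ((0 : ℂ), p.2) := measurable_const.prodMk measurable_snd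
  have e1 : Measurable ((fun q : ℂ × ℂ => hh q.1 q.2) ∘ (fun p : M × ℂ => ((0 : ℂ), p.2))) :=
    measurable_hh.comp e0
  have e3 : Measurable ((fun q : M => f q) ∘ (fun p : M × ℂ => Φ p.1 p.2)) := hf.comp hΦ.meas
  have e2 : Measurable (Function.uncurry fun (x : M) (w : ℂ) => hh 0 w ^ s * f (Φ x w)) := by
    have e4 := (e1.pow_const s).mul e3
    have e5 : (Function.uncurry fun (x : M) (w : ℂ) => hh 0 w ^ s * f (Φ x w)) =
      (fun p : M × ℂ => ((fun q : ℂ × ℂ => hh q.1 q.2) ∘ (fun p : M × ℂ => ((0 : ℂ), p.2))) p ^ s) *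
        ((fun q : M => f q) ∘ (fun p : M × ℂ => Φ p.1 p.2)) := by
      funext p
      rfl
    rw [e5]
    exact e4
  have h2 : StronglyMeasurable fun x : M => ∫ w, hh 0 w ^ s * f (Φ x w) ∂hypVol :=
    e2.stronglyMeasurable.integral_prod_right
  have h3 := h2.measurable.const_mul (((s : ℝ) - 1) / Real.pi)
  exact h3

theorem zero_mem_ball' : (0 : ℂ) ∈ ball (0 : ℂ) 1 := mem_ball_self one_pos

theorem abs_Qs_le (Φ : M → ℂ → M) {s : ℕ} (hs : 2 ≤ s) {f : M → ℝ} {B : ℝ}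
    (hB : ∀ x, |f x| ≤ B) (x : M) : |Qs Φ s f x| ≤ B := by
  obtain ⟨h1, h2⟩ := integral_hh_pow s hs
  have ha : 0 ≤ ((s : ℝ) - 1) / Real.pi := by
    apply div_nonneg _ Real.pi_pos.le
    have : (2 : ℝ) ≤ s := by exact_mod_cast hs
    linarith
  have h3 : ‖∫ w, hh 0 w ^ s * f (Φ x w) ∂hypVol‖ ≤ ∫ w, hh 0 w ^ s * B ∂hypVol := by
    apply norm_integral_le_of_norm_le (h2.mul_const B)
    filter_upwards [ae_mem_ball] with w hw
    rw [norm_mul, norm_pow, Real.norm_eq_abs, Real.norm_eq_abs,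
      abs_of_pos (hh_pos zero_mem_ball' hw)]
    exact mul_le_mul_of_nonneg_left (hB _) (pow_nonneg (hh_pos zero_mem_ball' hw).le _)
  rw [Real.norm_eq_abs, integral_mul_const] at h3
  unfold Qs
  rw [abs_mul, abs_of_nonneg ha]
  calc ((s : ℝ) - 1) / Real.pi * |∫ w, hh 0 w ^ s * f (Φ x w) ∂hypVol|
      ≤ ((s : ℝ) - 1) / Real.pi * ((∫ w, hh 0 w ^ s ∂hypVol) * B) :=
        mul_le_mul_of_nonneg_left h3 ha
    _ = (((s : ℝ) - 1) / Real.pi * ∫ w, hh 0 w ^ s ∂hypVol) * B := by ring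
    _ = B := by rw [h1, one_mul]

theorem exists_G [BorelSpace M] {φ : ℂ → M} (hφ : F.IsUniversalCovering φ)
    {f : M → ℝ} (hf : Measurable f) {B : ℝ} (hB : ∀ x, |f x| ≤ B) :
    ∃ G : ℂ → ℝ, Measurable G ∧ (∀ w, |G w| ≤ B) ∧ ∀ w ∈ ball (0 : ℂ) 1, G w = f (φ w) := by
  classical
  have hc : ContinuousOn φ (ball 0 1) := fun z hz =>
    (Foliation.IsTangentDisc.contAt hφ.tangent hz).continuousWithinAt
  have hm : Measurable ((ball (0 : ℂ) 1).piecewise φ (fun _ => φ 0)) :=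
    hc.measurable_piecewise continuousOn_const measurableSet_ball
  refine ⟨fun w => f ((ball (0 : ℂ) 1).piecewise φ (fun _ => φ 0) w), hf.comp hm,
    fun w => hB _, ?_⟩
  intro w hw
  simp only
  rw [Set.piecewise_eq_of_mem _ _ _ hw]

theorem Qs_cov [BorelSpace M] (hΦ : Fam F Φ) {φ : ℂ → M} (hφ : F.IsUniversalCovering φ) (s : ℕ)
    {f : M → ℝ} (hf : Measurable f) {G : ℂ → ℝ} (hG : ∀ w ∈ ball (0 : ℂ) 1, G w = f (φ w))
    {z : ℂ} (hz : z ∈ ball (0 : ℂ) 1) :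
    Qs Φ s f (φ z) = ((s : ℝ) - 1) / Real.pi * ∫ w, hh z w ^ s * G w ∂hypVol := by
  unfold Qs
  congr 1
  have h1 := rebase_integral hΦ hφ hz (k := fun t : ℝ => t ^ s) (measurable_id.pow_const s) hf
  rw [h1]
  apply integral_congr_ae
  filter_upwards [ae_mem_ball] with w hw
  rw [hG w hw]

theorem Qs_main [BorelSpace M] (hΦ : Fam F Φ) {s : ℕ} (hs : 2 ≤ s)
    {f : M → ℝ} (hf : Measurable f) {B : ℝ} (hB : ∀ x, |f x| ≤ B) {C : ℝ}
    (hC : ∀ F : ℂ → ℝ, Measurable F →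
    ∀ B : ℝ, (∀ w, |F w| ≤ B) →
      ContDiffOn ℝ 2 (fun z => ∫ w, hh z w ^ s * F w ∂hypVol) (ball 0 1) ∧
      lap (fun z => ∫ w, hh z w ^ s * F w ∂hypVol) 0 =
        4 * ((s : ℝ) * (s - 1) * ∫ w, hh 0 w ^ s * F w ∂hypVol -
          (s : ℝ) ^ 2 * ∫ w, hh 0 w ^ (s + 1) * F w ∂hypVol) ∧
      ‖fderiv ℝ (fun z => ∫ w, hh z w ^ s * F w ∂hypVol) 0‖ ≤ C * B)
    {φ : ℂ → M} (hφ : F.IsUniversalCovering φ) :
    ContDiffOn ℝ 2 (fun z => Qs Φ s f (φ z)) (ball 0 1) ∧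
    lap (fun z => Qs Φ s f (φ z)) 0 =
      4 * (s : ℝ) * (s - 1) * (Qs Φ s f (φ 0) - Qs Φ (s + 1) f (φ 0)) ∧
    ‖fderiv ℝ (fun z => Qs Φ s f (φ z)) 0‖ ≤ ((s : ℝ) - 1) / Real.pi * (C * B) := by
  obtain ⟨G, hGm, hGB, hG⟩ := exists_G hφ hf hB
  obtain ⟨p1, p2, p3⟩ := hC G hGm B hGB
  have ha : 0 ≤ ((s : ℝ) - 1) / Real.pi := by
    apply div_nonneg _ Real.pi_pos.le
    have : (2 : ℝ) ≤ s := by exact_mod_cast hs
    linarith
  have heq : EqOn (fun z => Qs Φ s f (φ z))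
      (fun z => ((s : ℝ) - 1) / Real.pi * ∫ w, hh z w ^ s * G w ∂hypVol) (ball 0 1) :=
    fun z hz => Qs_cov hΦ hφ s hf hG hz
  have hev : (fun z => Qs Φ s f (φ z)) =ᶠ[𝓝 0]
      (fun z => ((s : ℝ) - 1) / Real.pi * ∫ w, hh z w ^ s * G w ∂hypVol) :=
    heq.eventuallyEq_of_mem (isOpen_ball.mem_nhds zero_mem_ball')
  have hP : ContDiffAt ℝ 2 (fun z => ∫ w, hh z w ^ s * G w ∂hypVol) 0 :=
    p1.contDiffAt (isOpen_ball.mem_nhds zero_mem_ball')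
  refine ⟨(contDiffOn_const.mul p1).congr heq, ?_, ?_⟩
  · rw [lap_congr hev, lap_const_mul _ hP, p2, Qs_cov hΦ hφ s hf hG zero_mem_ball',
      Qs_cov hΦ hφ (s + 1) hf hG zero_mem_ball']
    push_cast
    ring
  · rw [hev.fderiv_eq, fderiv_const_mul (hP.differentiableAt (by norm_num)), norm_smul,
      Real.norm_eq_abs, abs_of_nonneg ha]
    exact mul_le_mul_of_nonneg_left p3 ha

theorem leafBound_Qs [BorelSpace M] (ω : PosForm E M) (hΦ : Fam F Φ) {s : ℕ} (hs : 2 ≤ s)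
    {f : M → ℝ} (hf : Measurable f) {B : ℝ} (hB : ∀ x, |f x| ≤ B) :
    ∃ C, LeafBound F (Qs Φ s f) (fun φ => C * (1 + pullback ω φ 0)) := by
  obtain ⟨C, hC⟩ := potential_smooth s hs
  have hs2 : (2 : ℝ) ≤ s := by exact_mod_cast hs
  refine ⟨8 * s * (s - 1) * |B| + (((s : ℝ) - 1) / Real.pi * (C * B)) ^ 2, ?_⟩
  intro φ hφ
  obtain ⟨h1, h2, h3⟩ := Qs_main hΦ hs hf hB hC hφ
  have hp : 0 ≤ pullback ω φ 0 := pullback_nonneg ω φ 0
  have hA : 0 ≤ 8 * (s : ℝ) * (s - 1) * |B| := by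
    have : (0 : ℝ) ≤ s - 1 := by linarith
    positivity
  have hD : 0 ≤ (((s : ℝ) - 1) / Real.pi * (C * B)) ^ 2 := sq_nonneg _
  refine ⟨h1, ?_, ?_⟩
  · rw [h2]
    have q1 := abs_Qs_le Φ hs hB (φ 0)
    have q2 := abs_Qs_le Φ (s := s + 1) (by omega) hB (φ 0)
    have hBB : B ≤ |B| := le_abs_self B
    have q3 : |Qs Φ s f (φ 0) - Qs Φ (s + 1) f (φ 0)| ≤ 2 * |B| := by
      have := abs_sub (Qs Φ s f (φ 0)) (Qs Φ (s + 1) f (φ 0))
      linarith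
    have hk : 0 ≤ 4 * (s : ℝ) * (s - 1) := by
      have : (0 : ℝ) ≤ s - 1 := by linarith
      positivity
    rw [abs_mul, abs_of_nonneg hk]
    have q4 := mul_le_mul_of_nonneg_left q3 hk
    simp only
    nlinarith
  · have q5 : ‖fderiv ℝ (fun z => Qs Φ s f (φ z)) 0‖ ^ 2 ≤ (((s : ℝ) - 1) / Real.pi * (C * B)) ^ 2 :=
      pow_le_pow_left₀ (norm_nonneg _) h3 2
    simp only
    nlinarith

theorem lap_Qs [BorelSpace M] (hΦ : Fam F Φ) {s : ℕ} (hs : 2 ≤ s)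
    {f : M → ℝ} (hf : Measurable f) {B : ℝ} (hB : ∀ x, |f x| ≤ B) {φ : ℂ → M}
    (hφ : F.IsUniversalCovering φ) :
    lap (fun z => Qs Φ s f (φ z)) 0 =
      4 * (s : ℝ) * (s - 1) * (Qs Φ s f (φ 0) - Qs Φ (s + 1) f (φ 0)) := by
  obtain ⟨C, hC⟩ := potential_smooth s hs
  exact (Qs_main hΦ hs hf hB hC hφ).2.1


end Pool.Agent.Helper684.GX.Har
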