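import Pool.Agent.Helper684.GX.Har.I4

attribute [local instance] Pool.Agent.Helper684.GX.Nev.leafInst

set_option autoImplicit false

open Set Metric Filter Topology MeasureTheory
open scoped Manifold ComplexConjugate ENNReal
open ProbabilityTheory
open Pool.Agent.Helper684.GX.Nev Pool.Agent.Helper684.GX.Ergo

namespace Pool.Agent.Helper684.GX.Har


variable {E M : Type*} [NormedAddCommGroup E] [NormedSpace ℂ E] [TopologicalSpace M]
  [ChartedSpace E M] [IsManifold 𝓘(ℂ, E) 1 M] [MeasurableSpace M]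

variable {F : Foliation E M} {ω : PosForm E M} {μ : Measure M} {Φ : M → ℂ → M} {W : M → ℝ}

/-- the Poincare measure of a harmonic measure -/
noncomputable def poin (μ : Measure M) (den : M → ℝ) : Measure M :=
  μ.withDensity (fun x => ENNReal.ofReal (1 / den x))


theorem i5_den (hΦ : Fam F Φ) (hH : ∀ᵐ x ∂μ, IsHyperbolic F x) {den : M → ℝ}
    (hden : ∀ φ : ℂ → M, F.IsUniversalCovering φ → den (φ 0) = pullback ω φ 0) :
    ∀ᵐ x ∂μ, den x = pullback ω (Φ x) 0 := by
  filter_upwards [hH] with x hx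
  obtain ⟨h1, h2⟩ := hΦ.cov x hx
  have := hden (Φ x) h1
  rwa [h2] at this

theorem poin_finite [BorelSpace M] [FiniteDimensional ℂ E] [T2Space M] [CompactSpace M]
    [IsFiniteMeasure μ] (hΦ : Fam F Φ) (hH : ∀ᵐ x ∂μ, IsHyperbolic F x)
    (hT : Test F ω μ Φ) (hW : Barrier F ω W) {den : M → ℝ} (hd : Measurable den)
    (hden : ∀ φ : ℂ → M, F.IsUniversalCovering φ → den (φ 0) = pullback ω φ 0) :
    IsFiniteMeasure (poin μ den) := by
  have h1 := (finite_mass hΦ hH hT hW).1
  have h2 : ∫⁻ x, ENNReal.ofReal (1 / den x) ∂μ = ∫⁻ x, ENNReal.ofReal (1 / pullback ω (Φ x) 0) ∂μ := by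
    apply lintegral_congr_ae
    filter_upwards [i5_den (ω := ω) hΦ hH hden] with x hx
    rw [hx]
  unfold poin
  apply isFiniteMeasure_withDensity
  rw [h2]
  exact h1.ne

theorem i5_integral {den : M → ℝ} (hd : Measurable den) (hpos : ∀ᵐ x ∂μ, 0 < den x) (g : M → ℝ) :
    ∫ x, g x ∂(poin μ den) = ∫ x, g x / den x ∂μ := by
  unfold poin
  have hm : Measurable (fun x => ENNReal.ofReal (1 / den x)) :=
    ENNReal.measurable_ofReal.comp (measurable_const.div hd)
  rw [integral_withDensity_eq_integral_toReal_smul hm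
    (Eventually.of_forall fun x => ENNReal.ofReal_lt_top)]
  apply integral_congr_ae
  filter_upwards [hpos] with x hx
  show (ENNReal.ofReal (1 / den x)).toReal • g x = g x / den x
  rw [ENNReal.toReal_ofReal (by positivity), smul_eq_mul]
  ring

theorem i5_pos (hΦ : Fam F Φ) (hH : ∀ᵐ x ∂μ, IsHyperbolic F x) {den : M → ℝ}
    (hden : ∀ φ : ℂ → M, F.IsUniversalCovering φ → den (φ 0) = pullback ω φ 0) :
    ∀ᵐ x ∂μ, 0 < den x := by
  filter_upwards [hH, i5_den (ω := ω) hΦ hH hden] with x hx h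
  rw [h]
  exact pullback_pos_cov (hΦ.cov x hx).1

theorem i5_int_Qs {ν : Measure M} [IsFiniteMeasure ν] (hΦ : Fam F Φ) {s : ℕ} (hs : 2 ≤ s)
    {f : M → ℝ} (hf : Measurable f) {B : ℝ} (hB : ∀ x, |f x| ≤ B) :
    Integrable (Qs Φ s f) ν := by
  refine Integrable.mono' (integrable_const B) (measurable_Qs hΦ s hf).aestronglyMeasurable ?_
  exact Eventually.of_forall fun x => abs_Qs_le Φ hs hB x

theorem integral_Qs_succ [BorelSpace M] [FiniteDimensional ℂ E] [T2Space M] [CompactSpace M]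
    [IsFiniteMeasure μ] (hΦ : Fam F Φ) (hH : ∀ᵐ x ∂μ, IsHyperbolic F x)
    (hT : Test F ω μ Φ) (hW : Barrier F ω W) {den : M → ℝ} (hd : Measurable den)
    (hden : ∀ φ : ℂ → M, F.IsUniversalCovering φ → den (φ 0) = pullback ω φ 0)
    {s : ℕ} (hs : 2 ≤ s) {f : M → ℝ} (hf : Measurable f) {B : ℝ} (hB : ∀ x, |f x| ≤ B) :
    ∫ x, Qs Φ s f x ∂(poin μ den) = ∫ x, Qs Φ (s + 1) f x ∂(poin μ den) := by
  have := poin_finite hΦ hH hT hW hd hden
  have hpos := i5_pos (ω := ω) hΦ hH hden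
  have hharm := (harmonic hΦ hH hT hW (measurable_Qs hΦ s hf) ⟨B, fun x => abs_Qs_le Φ hs hB x⟩
    (leafBound_Qs ω hΦ hs hf hB)).2
  have h1 : ∫ x, lap (fun z => Qs Φ s f (Φ x z)) 0 / pullback ω (Φ x) 0 ∂μ =
      ∫ x, (4 * (s : ℝ) * (s - 1)) * ((Qs Φ s f x - Qs Φ (s + 1) f x) / den x) ∂μ := by
    apply integral_congr_ae
    filter_upwards [hH, i5_den (ω := ω) hΦ hH hden] with x hx h
    obtain ⟨h2, h3⟩ := hΦ.cov x hx
    show lap (fun z => Qs Φ s f (Φ x z)) 0 / pullback ω (Φ x) 0 = _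
    rw [lap_Qs hΦ hs hf hB h2, h3, h]
    ring
  rw [h1, integral_const_mul] at hharm
  have hs2 : (2:ℝ) ≤ s := by exact_mod_cast hs
  have hne : 4 * (s : ℝ) * (s - 1) ≠ 0 := by
    have : 0 < 4 * (s : ℝ) * (s - 1) := by
      have : (0:ℝ) < s - 1 := by linarith
      positivity
    exact this.ne'
  have h2 : ∫ x, (Qs Φ s f x - Qs Φ (s + 1) f x) / den x ∂μ = 0 := by
    rcases mul_eq_zero.1 hharm with h | h
    · exact absurd h hne
    · exact h
  rw [← i5_integral hd hpos, integral_sub (i5_int_Qs hΦ hs hf hB)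
    (i5_int_Qs hΦ (by omega) hf hB)] at h2
  linarith

theorem i5_tendsto [BorelSpace M] (hΦ : Fam F Φ) {f : M → ℝ} (hf : Continuous f) {B : ℝ}
    (hB : ∀ x, |f x| ≤ B) {x : M} (hx : IsHyperbolic F x) :
    Tendsto (fun s : ℕ => Qs Φ s f x) atTop (𝓝 (f x)) := by
  obtain ⟨h1, h2⟩ := hΦ.cov x hx
  have hm : Measurable (fun w : ℂ => f (Φ x w)) :=
    hf.measurable.comp (hΦ.meas.comp measurable_prodMk_left)
  have h3 := approx_id ((ball (0:ℂ) 1).indicator (fun w => f (Φ x w)))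
    (hm.indicator measurableSet_ball) B (by
      intro w
      by_cases hw : w ∈ ball (0:ℂ) 1
      · rw [indicator_of_mem hw]; exact hB _
      · rw [indicator_of_notMem hw, abs_zero]
        exact (abs_nonneg _).trans (hB x)) (by
      have h4 : (fun w => f (Φ x w)) =ᶠ[𝓝 0] (ball (0:ℂ) 1).indicator (fun w => f (Φ x w)) := by
        filter_upwards [isOpen_ball.mem_nhds (mem_ball_self one_pos)] with w hw
        rw [indicator_of_mem hw]
      refine ContinuousAt.congr ?_ h4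
      have h5 : ContinuousAt (Φ x) 0 :=
        (hΦ.cont x).continuousAt (isOpen_ball.mem_nhds (mem_ball_self one_pos))
      exact hf.continuousAt.comp h5)
  rw [indicator_of_mem (mem_ball_self one_pos), h2] at h3
  refine h3.congr fun s => ?_
  unfold Qs
  congr 1
  apply integral_congr_ae
  filter_upwards [ae_mem_ball] with w hw
  rw [indicator_of_mem hw]

theorem integral_Qs [BorelSpace M] [FiniteDimensional ℂ E] [T2Space M] [CompactSpace M]
    [IsFiniteMeasure μ] (hΦ : Fam F Φ) (hH : ∀ᵐ x ∂μ, IsHyperbolic F x)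
    (hT : Test F ω μ Φ) (hW : Barrier F ω W) {den : M → ℝ} (hd : Measurable den)
    (hden : ∀ φ : ℂ → M, F.IsUniversalCovering φ → den (φ 0) = pullback ω φ 0)
    {f : M → ℝ} (hf : Continuous f) :
    ∫ x, Qs Φ 2 f x ∂(poin μ den) = ∫ x, f x ∂(poin μ den) := by
  have := poin_finite hΦ hH hT hW hd hden
  obtain ⟨B, hB⟩ : ∃ B, ∀ x, |f x| ≤ B := by
    obtain ⟨B, hB⟩ := (isCompact_univ.image hf.abs).bddAbove
    exact ⟨B, fun x => hB ⟨x, mem_univ x, rfl⟩⟩
  have hfm : Measurable f := hf.measurable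
  have hconst : ∀ s : ℕ, ∫ x, Qs Φ (s + 2) f x ∂(poin μ den) = ∫ x, Qs Φ 2 f x ∂(poin μ den) := by
    intro s
    induction s with
    | zero => rfl
    | succ s ih =>
      rw [← ih]
      exact (integral_Qs_succ hΦ hH hT hW hd hden (s := s + 2) (by omega) hfm hB).symm
  have hHp : ∀ᵐ x ∂(poin μ den), IsHyperbolic F x :=
    (withDensity_absolutelyContinuous μ _).ae_le hH
  have hlim : Tendsto (fun s : ℕ => ∫ x, Qs Φ (s + 2) f x ∂(poin μ den)) atTop
      (𝓝 (∫ x, f x ∂(poin μ den))) := by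
    apply tendsto_integral_of_dominated_convergence (fun _ => B)
    · intro s
      exact (measurable_Qs hΦ (s + 2) hfm).aestronglyMeasurable
    · exact integrable_const B
    · intro s
      exact Eventually.of_forall fun x => abs_Qs_le Φ (by omega) hB x
    · filter_upwards [hHp] with x hx
      exact (i5_tendsto hΦ hf hB hx).comp (tendsto_add_atTop_nat 2)
  have hlim2 : Tendsto (fun s : ℕ => ∫ x, Qs Φ (s + 2) f x ∂(poin μ den)) atTop
      (𝓝 (∫ x, Qs Φ 2 f x ∂(poin μ den))) := by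
    simp_rw [hconst]
    exact tendsto_const_nhds
  exact tendsto_nhds_unique hlim2 hlim


end Pool.Agent.Helper684.GX.Har
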