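import Pool.Agent.Helper684.GX.Har.Defs
import Pool.Agent.Helper684.GX.Ergo.M1

attribute [local instance] Pool.Agent.Helper684.GX.Nev.leafInst
set_option autoImplicit false

open Set Metric Filter Topology MeasureTheory
open scoped Manifold ComplexConjugate
open Pool.Agent.Helper684.GX.Nev Pool.Agent.Helper684.GX.Ergo

namespace Pool.Agent.Helper684.GX.Har


section
variable {E M : Type*} [NormedAddCommGroup E] [NormedSpace ℂ E] [TopologicalSpace M]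
  [ChartedSpace E M] [IsManifold 𝓘(ℂ, E) 1 M] [FiniteDimensional ℂ E]

theorem real_charts : ∀ e ∈ IsManifold.maximalAtlas 𝓘(ℂ, E) 1 M,
      ∀ e' ∈ IsManifold.maximalAtlas 𝓘(ℂ, E) 1 M,
      ContDiffOn ℝ ((⊤ : ℕ∞) : WithTop ℕ∞) (e.symm.trans e') (e.symm.trans e').source := by
  intro e he e' he'
  haveI : CompleteSpace E := FiniteDimensional.complete ℂ E
  exact contDiffOn_real_of_charts he he'

theorem contDiffAt_comp_symm {e : OpenPartialHomeomorph M E}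
    (he : e ∈ IsManifold.maximalAtlas 𝓘(ℂ, E) 1 M) {f : M → ℝ}
    (hf : ContMDiff 𝓘(ℝ, E) 𝓘(ℝ, ℝ) ((⊤ : ℕ∞) : WithTop ℕ∞) f) {y : E} (hy : y ∈ e.target) :
    ContDiffAt ℝ ((⊤ : ℕ∞) : WithTop ℕ∞) (fun y => f (e.symm y)) y :=
  Pool.Agent.Helper684.GX.Ergo.contDiffAt_comp_symm_aux real_charts he hf hy

theorem lap_comp_disc {f : M → ℝ} (hf : ContMDiff 𝓘(ℝ, E) 𝓘(ℝ, ℝ) ((⊤ : ℕ∞) : WithTop ℕ∞) f)
    {ψ : ℂ → M}
    (hψ : MDifferentiableOn 𝓘(ℂ, ℂ) 𝓘(ℂ, E) ψ (ball 0 1)) {ξ : ℂ} (hξ : ξ ∈ ball (0 : ℂ) 1) :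
    ContDiffAt ℝ 2 (fun z => f (ψ z)) ξ ∧
      lap (fun z => f (ψ z)) ξ = 2 * Real.pi * ddcForm (E := E) f (ψ ξ) (discDeriv ψ ξ 1) :=
  Pool.Agent.Helper684.GX.Ergo.lap_comp_disc real_charts (fun _ _ _ hg hh => lap_comp_curve hg hh)
    hf hψ hξ

theorem ddcForm_smul {f : M → ℝ}
    (hf : ContMDiff 𝓘(ℝ, E) 𝓘(ℝ, ℝ) ((⊤ : ℕ∞) : WithTop ℕ∞) f) (x : M) (c : ℂ)
    (v : TangentSpace 𝓘(ℂ, E) x) :
    ddcForm f x (c • v) = ‖c‖ ^ 2 * ddcForm f x v :=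
  Pool.Agent.Helper684.GX.Ergo.ddcForm_smul real_charts (fun _ _ _ c hg => lap_line_smul hg c) hf x c v

end

end Pool.Agent.Helper684.GX.Har
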